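import Pool.Agent.H.MP_43e44c_ag.MQ.Def

/-!
The number of sign vectors solving linear equations mod p, by characters.
-/

set_option autoImplicit false

open Finset

namespace Pool.MP43e44c

theorem fou_sum {R : Type*} [CommRing R] (e : AddChar R ℂ) {κ : Type*} (s : Finset κ)
    (f : κ → R) : e (∑ l ∈ s, f l) = ∏ l ∈ s, e (f l) := by
  classical
  induction s using Finset.induction_on with
  | empty => rw [sum_empty, prod_empty, AddChar.map_zero_eq_one]
  | insert a s ha ih => rw [sum_insert ha, prod_insert ha, AddChar.map_add_eq_mul, ih]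

theorem fou_cos {p : ℕ} [NeZero p] (a : ZMod p) :
    ZMod.stdAddChar a + ZMod.stdAddChar (-a) =
      ((2 * Real.cos (2 * Real.pi * (a.val : ℝ) / p) : ℝ) : ℂ) := by
  have h1 : ZMod.stdAddChar a =
      Complex.exp (((2 * Real.pi * (a.val : ℝ) / p : ℝ) : ℂ) * Complex.I) := by
    rw [ZMod.stdAddChar_apply, ZMod.toCircle_apply]
    congr 1
    push_cast
    ring
  have h2 : ZMod.stdAddChar (-a) =
      Complex.exp (-((2 * Real.pi * (a.val : ℝ) / p : ℝ) : ℂ) * Complex.I) := by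
    rw [AddChar.map_neg_eq_inv, h1, ← Complex.exp_neg, neg_mul]
  rw [h1, h2, Complex.ofReal_mul, Complex.ofReal_cos, Complex.cos]
  push_cast
  ring

theorem fou_orth {p : ℕ} [Fact p.Prime] {d : ℕ} (y : Fin d → ZMod p) :
    ∑ θ : Fin d → ZMod p, (ZMod.stdAddChar (∑ l, θ l * y l) : ℂ) =
      if (∀ l, y l = 0) then (p : ℂ) ^ d else 0 := by
  classical
  have h1 : ∀ θ : Fin d → ZMod p, (ZMod.stdAddChar (∑ l, θ l * y l) : ℂ) =
      ∏ l, ZMod.stdAddChar (θ l * y l) := fun θ => fou_sum _ _ _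
  rw [Finset.sum_congr rfl fun θ _ => h1 θ]
  have h2 := Finset.prod_univ_sum (fun _ : Fin d => (Finset.univ : Finset (ZMod p)))
    (fun l t => (ZMod.stdAddChar (t * y l) : ℂ))
  rw [Fintype.piFinset_univ] at h2
  rw [← h2]
  have h3 : ∀ l, ∑ t : ZMod p, (ZMod.stdAddChar (t * y l) : ℂ) =
      if y l = 0 then (p : ℂ) else 0 := by
    intro l
    rw [AddChar.sum_mulShift (y l) (ZMod.isPrimitive_stdAddChar p), ZMod.card]
    split_ifs <;> simp
  rw [Finset.prod_congr rfl fun l _ => h3 l]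
  split_ifs with h
  · rw [Finset.prod_congr rfl fun l _ => if_pos (h l), prod_const, card_univ, Fintype.card_fin]
  · push Not at h
    obtain ⟨l, hl⟩ := h
    exact Finset.prod_eq_zero (mem_univ l) (if_neg hl)

/-- Let `e (a) = exp (2 π i a / p)` be the standard additive character of `ZMod p`
(`ZMod.stdAddChar`, values `ZMod.stdAddChar_apply`/`ZMod.toCircle`).  For `y : Fin d → ZMod p` one has
`∑ θ, e (∑ l, θ l * y l) = p ^ d` if `y = 0` and `0` otherwise (product over `l` of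
`AddChar.sum_mulShift`-type sums).  With `y l = ∑ i, A l i * ε_i`, `ε = svr v`, sum over all `v`
and exchange: `∑ θ, ∑ l, θ l * y l = ∑ i, ε_i A_θ(i)`, `A_θ(i) = ∑ l, θ l * A l i`, and
`∑ v, ∏ i, e (ε_i A_θ(i)) = ∏ i, (e (A_θ i) + e (- A_θ i)) = ∏ i, 2 cos (2 π A_θ(i) / p)`.  So
`#{v | …} * p ^ d = ∑ θ, ∏ i, 2 cos (2 π (A_θ i).val / p)`, and we bound by absolute values. -/
theorem fou_modp {ι : Type*} [Fintype ι] {p : ℕ} [Fact p.Prime] {d : ℕ}
    (A : Matrix (Fin d) ι (ZMod p)) :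
    ({v : ι → Bool | ∀ l, ∑ i, A l i * svr (ZMod p) v i = 0}.ncard : ℝ) * (p : ℝ) ^ d
      ≤ 2 ^ Fintype.card ι * ∑ θ : Fin d → ZMod p,
        ∏ i, |Real.cos (2 * Real.pi * ((∑ l, θ l * A l i).val : ℝ) / p)| := by
  classical
  have hN : {v : ι → Bool | ∀ l, ∑ i, A l i * svr (ZMod p) v i = 0}.ncard =
      (univ.filter fun v : ι → Bool => ∀ l, ∑ i, A l i * svr (ZMod p) v i = 0).card := by
    rw [← Set.ncard_coe_finset]
    congr 1
    ext v
    simp
  rw [hN]
  have h1 : (((univ.filter fun v : ι → Bool => ∀ l, ∑ i, A l i * svr (ZMod p) v i = 0).card : ℕ) :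
      ℂ) * (p : ℂ) ^ d = ∑ v : ι → Bool, ∑ θ : Fin d → ZMod p,
        (ZMod.stdAddChar (∑ l, θ l * ∑ i, A l i * svr (ZMod p) v i) : ℂ) := by
    rw [Finset.sum_congr rfl fun v _ => fou_orth (fun l => ∑ i, A l i * svr (ZMod p) v i),
      ← Finset.sum_filter, sum_const, nsmul_eq_mul]
  rw [sum_comm] at h1
  have h2 : ∀ θ : Fin d → ZMod p, ∑ v : ι → Bool,
      (ZMod.stdAddChar (∑ l, θ l * ∑ i, A l i * svr (ZMod p) v i) : ℂ) =
      ((∏ i, (2 * Real.cos (2 * Real.pi * ((∑ l, θ l * A l i).val : ℝ) / p)) : ℝ) : ℂ) := by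
    intro θ
    have h3 : ∀ v : ι → Bool, (ZMod.stdAddChar (∑ l, θ l * ∑ i, A l i * svr (ZMod p) v i) : ℂ) =
        ∏ i, ZMod.stdAddChar ((∑ l, θ l * A l i) * (if v i then 1 else -1)) := by
      intro v
      rw [← fou_sum]
      congr 1
      simp only [mul_sum, sum_mul]
      rw [sum_comm]
      refine sum_congr rfl fun i _ => sum_congr rfl fun l _ => ?_
      unfold svr
      ring
    rw [Finset.sum_congr rfl fun v _ => h3 v]
    have h4 := Finset.prod_univ_sum (fun _ : ι => (Finset.univ : Finset Bool))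
      (fun i b => (ZMod.stdAddChar ((∑ l, θ l * A l i) * (if b then 1 else -1)) : ℂ))
    rw [Fintype.piFinset_univ] at h4
    rw [← h4, Complex.ofReal_prod]
    refine prod_congr rfl fun i _ => ?_
    rw [← fou_cos, Fintype.sum_bool]
    simp
  rw [Finset.sum_congr rfl fun θ _ => h2 θ, ← Complex.ofReal_sum] at h1
  have h5 : (((univ.filter fun v : ι → Bool => ∀ l, ∑ i, A l i * svr (ZMod p) v i = 0).card : ℕ) :
      ℝ) * (p : ℝ) ^ d = ∑ θ : Fin d → ZMod p,
        ∏ i, (2 * Real.cos (2 * Real.pi * ((∑ l, θ l * A l i).val : ℝ) / p)) := by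
    exact_mod_cast h1
  rw [h5, mul_sum]
  refine sum_le_sum fun θ _ => ?_
  refine (le_abs_self _).trans ?_
  rw [abs_prod]
  have h6 : ∀ i, |2 * Real.cos (2 * Real.pi * ((∑ l, θ l * A l i).val : ℝ) / p)| =
      2 * |Real.cos (2 * Real.pi * ((∑ l, θ l * A l i).val : ℝ) / p)| := by
    intro i
    rw [abs_mul, abs_two]
  rw [prod_congr rfl fun i _ => h6 i, prod_mul_distrib, prod_const, card_univ]

end Pool.MP43e44c
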