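import Pool.Agent.H.MP_43e44c_ag.MQ.Hol
import Pool.Agent.H.MP_43e44c_ag.MQ.Fou

/-!
The number of sign vectors killed by a family of vectors with symmetries, mod p.
-/

set_option autoImplicit false

open Finset Module

namespace Pool.MP43e44c

/-- a spanning subfamily with `d` members -/
theorem step_basis {ι : Type*} [Fintype ι] {K : Type*} [Field K] {E : Type*} [AddCommGroup E]
    [Module K E] [Module.Finite K E] (x : ι → E) {d : ℕ}
    (hspan : finrank K (Submodule.span K (Set.range x)) = d) :
    ∃ f : Fin d → ι, LinearIndependent K (fun j => x (f j)) ∧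
      Submodule.span K (Set.range fun j => x (f j)) = Submodule.span K (Set.range x) := by
  obtain ⟨κ, a, ha, hs, hli⟩ := exists_linearIndependent' K x
  have hfin : Finite κ := Finite.of_injective a ha
  have : Fintype κ := Fintype.ofFinite κ
  have hcard : Fintype.card κ = d := by
    rw [← hspan, ← hs, finrank_span_eq_card hli]
  let e : Fin d ≃ κ := (Fintype.equivFinOfCardEq hcard).symm
  refine ⟨fun j => a (e j), ?_, ?_⟩
  · exact hli.comp e e.injective
  · rw [← hs]
    congr 1
    ext y
    constructor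
    · rintro ⟨j, rfl⟩
      exact ⟨e j, rfl⟩
    · rintro ⟨j, rfl⟩
      exact ⟨e.symm j, by simp⟩

theorem step_sum {ι : Type*} [Fintype ι] [DecidableEq ι] {K : Type*} [Field K] {E : Type*}
    [AddCommGroup E] [Module K E] {d : ℕ} (h : Fin d → ι) (c : Fin d → K) (y : ι → E)
    (s : ι → K) :
    ∑ i, ((∑ j, if h j = i then c j else 0) * s i) • y i = ∑ j, (c j * s (h j)) • y (h j) := by
  simp only [Finset.sum_mul, Finset.sum_smul]
  rw [Finset.sum_comm]
  refine Finset.sum_congr rfl fun j _ => ?_
  rw [Finset.sum_eq_single (h j)]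
  · rw [if_pos rfl]
  · intro i _ hi
    rw [if_neg (Ne.symm hi), zero_mul, zero_smul]
  · intro h'
    exact absurd (Finset.mem_univ _) h'

/-- Let `X` be the span of the `x i`, of dimension `d`.  Choose `f : Fin d → ι` such that the
`x (f j)` form a basis of `X` (`Submodule.exists_fun_fin_finrank_span_eq` or
`exists_linearIndependent`), and let `A l i` be the coordinates of `x i` in a basis of `X`
(indexed by `Fin d`).  Then `∑ i, ε_i • x i = 0` iff `∑ i, A l i * ε_i = 0` for all `l`, so `fou_modp`
applies.  For `g : Γ` the vectors `x (g • f j)` are linearly independent: if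
`∑ j, c j • x (g • f j) = 0`, apply `hx g⁻¹` (to the function on `ι` which is `c j` at `g • f j` and
`0` elsewhere; `f` is injective) and obtain `∑ j, (± c j) • x (f j) = 0`.  Hence
`(A.submatrix id (g • f ·)).det ≠ 0` for all `g`, and `fin_holder` with
`φ a = |cos (2 π a.val / p)|` gives the claim. -/
theorem step_span {Γ ι : Type*} [Group Γ] [Fintype Γ] [MulAction Γ ι] [Fintype ι]
    [MulAction.IsPretransitive Γ ι] (C : Coc Γ ι) {p : ℕ} [Fact p.Prime]
    {E : Type*} [AddCommGroup E] [Module (ZMod p) E] [Module.Finite (ZMod p) E] (x : ι → E)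
    (hx : ∀ (g : Γ) (c : ι → ZMod p), ∑ i, c i • x i = 0 →
      ∑ i, (c i * (C.sgn g i : ZMod p)) • x (g • i) = 0)
    {d : ℕ} (hd : 0 < d)
    (hspan : finrank (ZMod p) (Submodule.span (ZMod p) (Set.range x)) = d) :
    ({v : ι → Bool | ∑ i, svr (ZMod p) v i • x i = 0}.ncard : ℝ) * (p : ℝ) ^ d
      ≤ 2 ^ Fintype.card ι * (∑ a : ZMod p,
        |Real.cos (2 * Real.pi * (a.val : ℝ) / p)| ^ ((Fintype.card ι : ℝ) / d)) ^ d := by
  classical
  obtain ⟨f, hli, hs⟩ := step_basis x hspan
  have hco : ∀ i, ∃ c : Fin d → ZMod p, ∑ l, c l • x (f l) = x i := by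
    intro i
    have h1 : x i ∈ Submodule.span (ZMod p) (Set.range fun j => x (f j)) := by
      rw [hs]
      exact Submodule.subset_span ⟨i, rfl⟩
    exact (Submodule.mem_span_range_iff_exists_fun _).1 h1
  choose A hA using hco
  have hcomb : ∀ ε : ι → ZMod p, ∑ i, ε i • x i = ∑ l, (∑ i, A i l * ε i) • x (f l) := by
    intro ε
    simp only [Finset.sum_smul]
    rw [Finset.sum_comm]
    refine Finset.sum_congr rfl fun i _ => ?_
    rw [← hA i, Finset.smul_sum]
    refine Finset.sum_congr rfl fun l _ => ?_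
    rw [smul_smul, mul_comm]
  have hset : {v : ι → Bool | ∑ i, svr (ZMod p) v i • x i = 0} =
      {v : ι → Bool | ∀ l, ∑ i, (Matrix.of fun l i => A i l) l i * svr (ZMod p) v i = 0} := by
    ext v
    rw [Set.mem_setOf_eq, Set.mem_setOf_eq, hcomb]
    constructor
    · intro h
      exact Fintype.linearIndependent_iff.1 hli _ h
    · intro h
      refine Finset.sum_eq_zero fun l _ => ?_
      have h1 : ∑ i, A i l * svr (ZMod p) v i = 0 := h l
      rw [h1, zero_smul]
  rw [hset]
  refine (fou_modp (Matrix.of fun l i => A i l)).trans ?_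
  refine mul_le_mul_of_nonneg_left ?_ (by positivity)
  refine fin_holder (Γ := Γ) hd (Matrix.of fun l i => A i l) f ?_
    (φ := fun a => |Real.cos (2 * Real.pi * (a.val : ℝ) / p)|) (fun a => abs_nonneg _)
  intro g hdet
  obtain ⟨c, hc0, hc⟩ := Matrix.exists_mulVec_eq_zero_iff.2 hdet
  apply hc0
  have h1 : ∑ j, c j • x (g • f j) = 0 := by
    have h2 : ∀ j, c j • x (g • f j) = ∑ l, (c j * A (g • f j) l) • x (f l) := by
      intro j
      rw [← hA (g • f j), Finset.smul_sum]
      refine Finset.sum_congr rfl fun l _ => ?_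
      rw [smul_smul]
    rw [Finset.sum_congr rfl fun j _ => h2 j, Finset.sum_comm]
    refine Finset.sum_eq_zero fun l _ => ?_
    rw [← Finset.sum_smul]
    have h3 := congrFun hc l
    rw [Matrix.mulVec, dotProduct, Pi.zero_apply] at h3
    have h4 : ∑ j, c j * A (g • f j) l = 0 := by
      rw [← h3]
      refine Finset.sum_congr rfl fun j _ => ?_
      rw [Matrix.submatrix_apply, Matrix.of_apply, mul_comm]
      rfl
    rw [h4, zero_smul]
  have h5 := hx g⁻¹ (fun i => ∑ j, if g • f j = i then c j else 0) (by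
    have h6 := step_sum (fun j => g • f j) c x (fun _ => 1)
    simp only [mul_one] at h6
    rw [h6]
    exact h1)
  have h7 := step_sum (fun j => g • f j) c (fun i => x (g⁻¹ • i)) (fun i => (C.sgn g⁻¹ i : ZMod p))
  simp only [inv_smul_smul] at h7
  rw [h7] at h5
  have h8 := Fintype.linearIndependent_iff.1 hli _ h5
  funext j
  have h9 := h8 j
  have h10 : (C.sgn g⁻¹ (g • f j) : ZMod p) * (C.sgn g⁻¹ (g • f j) : ZMod p) = 1 := by
    have h11 := C.sgn_mul_self g⁻¹ (g • f j)
    have h12 : ((C.sgn g⁻¹ (g • f j) * C.sgn g⁻¹ (g • f j) : ℤ) : ZMod p) = ((1 : ℤ) : ZMod p) := by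
      rw [h11]
    push_cast at h12
    exact h12
  calc c j = c j * (C.sgn g⁻¹ (g • f j) : ZMod p) * (C.sgn g⁻¹ (g • f j) : ZMod p) := by
        rw [mul_assoc, h10, mul_one]
    _ = 0 := by rw [h9, zero_mul]

end Pool.MP43e44c
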