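import Pool.Agent.H.MP_43e44c_ag.Gen

/-!
Orbits of the Galois group on pairs of embeddings and irreducible factors over the field.
-/

set_option autoImplicit false

open NumberField Finset Module Polynomial

namespace Pool.MP43e44c

/-- Two embeddings which agree on a generator are equal. -/
theorem orbf_ext {K : Type*} [Field K] [NumberField K] {α : K}
    (hα : IntermediateField.adjoin ℚ {α} = ⊤) {y y' : K →+* ℂ} (h : y α = y' α) : y = y' := by
  have h1 : Algebra.adjoin ℚ {α} = ⊤ := by
    rw [← IntermediateField.adjoin_simple_toSubalgebra_of_isAlgebraic (Algebra.IsAlgebraic.isAlgebraic α), hα]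
    rfl
  have h2 : y.toRatAlgHom = y'.toRatAlgHom := by
    refine AlgHom.ext_of_adjoin_eq_top h1 ?_
    intro x hx
    rw [Set.mem_singleton_iff] at hx
    subst hx
    exact h
  ext x
  exact DFunLike.congr_fun h2 x

/-- Embeddings attached to the same irreducible factor are conjugate over the first embedding. -/
theorem orbf_key {K : Type*} [Field K] [NumberField K] {α : K}
    (hα : IntermediateField.adjoin ℚ {α} = ⊤) (x₀ y y' : K →+* ℂ) {q : K[X]}
    (hq : Irreducible q) (h1 : q.eval₂ x₀ (y α) = 0) (h2 : q.eval₂ x₀ (y' α) = 0) :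
    ∃ g : GG K, g • x₀ = x₀ ∧ g • y = y' := by
  let _ : Algebra K (GC K) := (lft x₀).toRingHom.toAlgebra
  have halg : ∀ x : K, algebraMap K (GC K) x = lft x₀ x := fun _ => rfl
  have : IsScalarTower ℚ K (GC K) := IsScalarTower.of_algebraMap_eq fun r => by
    rw [halg]
    exact ((lft x₀).commutes r).symm
  have : Normal K (GC K) := Normal.tower_top_of_normal ℚ K (GC K)
  have hroot : ∀ z : K →+* ℂ, q.eval₂ x₀ (z α) = 0 → aeval (lft z α : GC K) q = 0 := by
    intro z hz
    have h3 : ((aeval (lft z α : GC K) q : GC K) : ℂ) = q.eval₂ x₀ (z α) := by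
      rw [aeval_def]
      have h4 : ((q.eval₂ (algebraMap K (GC K)) (lft z α) : GC K) : ℂ)
          = q.eval₂ (((GC K).val : GC K →+* ℂ).comp (algebraMap K (GC K))) (z α) :=
        Polynomial.hom_eval₂ q (algebraMap K (GC K)) ((GC K).val : GC K →+* ℂ) (lft z α)
      rw [h4]
      rfl
    apply Subtype.ext
    rw [h3, hz]
    rfl
  have h3 := minpoly.eq_of_irreducible hq (hroot y h1)
  have h4 := minpoly.eq_of_irreducible hq (hroot y' h2)
  have h5 : minpoly K (lft y' α : GC K) = minpoly K (lft y α : GC K) := by rw [← h3, ← h4]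
  obtain ⟨σ, hσ⟩ := Normal.minpoly_eq_iff_mem_orbit (E := GC K) |>.1 h5
  have hσ' : σ (lft y α) = lft y' α := hσ
  refine ⟨σ.restrictScalars ℚ, ?_, ?_⟩
  · ext x
    rw [smul_apply]
    have h6 : (σ.restrictScalars ℚ : GG K) (lft x₀ x) = σ (algebraMap K (GC K) x) := rfl
    rw [h6, σ.commutes, halg, coe_lft]
  · apply orbf_ext hα
    rw [smul_apply]
    have h6 : (σ.restrictScalars ℚ : GG K) (lft y α) = σ (lft y α) := rfl
    rw [h6, hσ', coe_lft]

/-- Every value of an embedding at the generator is a root of some irreducible factor. -/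
theorem orbf_exists {K : Type*} [Field K] [NumberField K] (α : K) (x₀ y : K →+* ℂ) :
    ∃ q ∈ UniqueFactorizationMonoid.factors ((minpoly ℚ α).map (algebraMap ℚ K)),
      q.eval₂ x₀ (y α) = 0 := by
  have hint : IsIntegral ℚ α := Algebra.IsIntegral.isIntegral α
  have h0 : (minpoly ℚ α).map (algebraMap ℚ K) ≠ 0 :=
    (Polynomial.map_ne_zero (minpoly.ne_zero hint))
  have h1 : ((minpoly ℚ α).map (algebraMap ℚ K)).eval₂ x₀ (y α) = 0 := by
    rw [eval₂_map]
    have h2 : x₀.comp (algebraMap ℚ K) = y.comp (algebraMap ℚ K) := Subsingleton.elim _ _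
    rw [h2, ← Polynomial.hom_eval₂, ← aeval_def, minpoly.aeval, map_zero]
  obtain ⟨u, hu⟩ := UniqueFactorizationMonoid.factors_prod h0
  rw [← hu, eval₂_mul] at h1
  have h3 : (u : K[X]).eval₂ x₀ (y α) ≠ 0 := by
    have h4 : IsUnit ((u : K[X]).eval₂ x₀ (y α)) :=
      u.isUnit.map (Polynomial.eval₂RingHom x₀ (y α))
    exact h4.ne_zero
  have h5 := (mul_eq_zero.1 h1).resolve_right h3
  have h6 : (((UniqueFactorizationMonoid.factors ((minpoly ℚ α).map (algebraMap ℚ K))).map
      (Polynomial.eval₂RingHom x₀ (y α))).prod) = 0 := by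
    rw [← map_multiset_prod]
    exact h5
  rw [Multiset.prod_eq_zero_iff, Multiset.mem_map] at h6
  obtain ⟨q, hq, hq2⟩ := h6
  exact ⟨q, hq, hq2⟩

/-- Let `f` be the minimal polynomial of `α` over `ℚ`.  Fix an embedding `x₀ : K → ℂ`.  Every orbit
of `GG K` on pairs contains an element `(x₀, y)` (`pretransitive`).  For `y : K → ℂ`, `y α` is a root of
`f`, so of `x₀ (q)` for some `q` in the multiset of the irreducible factors of
`f` over `K` (mapped by `x₀`); choose one, `q y`.  If `q y = q y'`, then `y α` and `y' α` are roots of the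
same irreducible polynomial over `x₀ K`, so there is an automorphism of `GC K` over `x₀ K`
mapping `y α` to `y' α` (`Normal.minpoly_eq_iff_mem_orbit` or
`Normal.exists_...`, `GC K` is normal over `x₀ K`; embeddings of `K` have images in `GC K`, see `lft` in
Gen.lean), i.e. `g ∈ GG K` with `g • x₀ = x₀` and `g • y = y'` (`y` is determined by `y α`, as `α`
generates `K`).  So the number of orbits is at most the number of distinct factors. -/
theorem card_orbits_le {K : Type*} [Field K] [NumberField K] {α : K}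
    (hα : IntermediateField.adjoin ℚ {α} = ⊤) :
    Nat.card (MulAction.orbitRel.Quotient (GG K) ((K →+* ℂ) × (K →+* ℂ)))
      ≤ (UniqueFactorizationMonoid.factors
          ((minpoly ℚ α).map (algebraMap ℚ K))).card := by
  classical
  set M := UniqueFactorizationMonoid.factors ((minpoly ℚ α).map (algebraMap ℚ K)) with hM
  obtain ⟨x₀⟩ : Nonempty (K →+* ℂ) := inferInstance
  have hrep : ∀ o : MulAction.orbitRel.Quotient (GG K) ((K →+* ℂ) × (K →+* ℂ)),
      ∃ y : K →+* ℂ, o = Quotient.mk'' (x₀, y) := by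
    intro o
    induction o using Quotient.inductionOn' with
    | h a =>
      obtain ⟨x, y⟩ := a
      obtain ⟨g, hg⟩ := exists_smul_eq x x₀
      refine ⟨g • y, ?_⟩
      rw [Quotient.eq'', MulAction.orbitRel_apply, MulAction.mem_orbit_iff]
      refine ⟨g⁻¹, ?_⟩
      rw [Prod.smul_mk, ← hg, inv_smul_smul, inv_smul_smul]
  choose Y hY using hrep
  have hex := fun y : K →+* ℂ => orbf_exists α x₀ y
  choose q hqM hq0 using hex
  let F : MulAction.orbitRel.Quotient (GG K) ((K →+* ℂ) × (K →+* ℂ)) → M.toFinset :=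
    fun o => ⟨q (Y o), Multiset.mem_toFinset.2 (hqM (Y o))⟩
  have hF : Function.Injective F := by
    intro o o' hoo
    have h1 : q (Y o) = q (Y o') := congrArg Subtype.val hoo
    have h2 := hq0 (Y o)
    have h3 := hq0 (Y o')
    rw [← h1] at h3
    obtain ⟨g, hg1, hg2⟩ := orbf_key hα x₀ (Y o) (Y o')
      (UniqueFactorizationMonoid.irreducible_of_factor _ (hqM (Y o))) h2 h3
    rw [hY o, hY o', Quotient.eq'', MulAction.orbitRel_apply, MulAction.mem_orbit_iff]
    refine ⟨g⁻¹, ?_⟩
    rw [Prod.smul_mk]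
    refine Prod.ext ?_ ?_
    · exact inv_smul_eq_iff.2 hg1.symm
    · exact inv_smul_eq_iff.2 hg2.symm
  calc Nat.card (MulAction.orbitRel.Quotient (GG K) ((K →+* ℂ) × (K →+* ℂ)))
      ≤ Nat.card M.toFinset := Nat.card_le_card_of_injective F hF
    _ = M.toFinset.card := by rw [Nat.card_eq_fintype_card, Fintype.card_coe]
    _ ≤ M.card := Multiset.toFinset_card_le M

end Pool.MP43e44c
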