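import Pool.Agent.H.MP_43e44c_ag.MQ.Few
import Pool.Agent.H.MP_43e44c_ag.MQ.OrbF
import Pool.Agent.H.MP_43e44c_ag.SB.Grp2
import Pool.Agent.H.MP_43e44c_ag.Count2

/-!
The number of CM types whose Hodge rings are not generated by divisor classes, for CM fields with
few Galois orbits on pairs of embeddings.
-/

set_option autoImplicit false

open NumberField Finset Module

namespace Pool.MP43e44c

/-- The trivial action on a point. -/
@[reducible] def unitAct (G : Type*) [Group G] : MulAction G Unit where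
  smul _ u := u
  one_smul _ := rfl
  mul_smul _ _ _ := rfl

/-- Subspaces of a line. -/
theorem few_line_empty {Γ ι : Type*} [Group Γ] [MulAction Γ ι] [Fintype ι] (C : Coc Γ ι)
    (h1 : Fintype.card ι = 1) : {v : ι → Bool | ∃ U : Submodule ℝ (EuclideanSpace ℝ ι),
        C.Inv U ∧ U ≠ ⊥ ∧ SOrth v U}.ncard = 0 := by
  have hempty : {v : ι → Bool | ∃ U : Submodule ℝ (EuclideanSpace ℝ ι),
      C.Inv U ∧ U ≠ ⊥ ∧ SOrth v U} = ∅ := by
    rw [Set.eq_empty_iff_forall_notMem]
    rintro v ⟨U, -, hU0, hv⟩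
    have h5 : U = ⊤ := by
      apply Submodule.eq_top_of_finrank_eq
      have h6 : finrank ℝ U ≤ finrank ℝ (EuclideanSpace ℝ ι) := Submodule.finrank_le U
      have h7 : 0 < finrank ℝ U := by
        have : Nontrivial U := Submodule.nontrivial_iff_ne_bot.2 hU0
        exact finrank_pos
      rw [finrank_euclideanSpace, h1] at h6 ⊢
      omega
    have h6 := hv (sv v) (by rw [h5]; trivial)
    rw [real_inner_self_eq_norm_sq, norm_sv_sq, h1] at h6
    norm_num at h6
  rw [hempty, Set.ncard_empty]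

/-- Tuples of length one. -/
theorem few_one {Γ ι : Type*} [Group Γ] [MulAction Γ ι] [Fintype ι] (C : Coc Γ ι)
    [DecidableEq ι] [DecidablePred fun v : Fin 1 → ι → Bool =>
      ∃ U : Submodule ℝ (EuclideanSpace ℝ ι), C.Inv U ∧ U ≠ ⊥ ∧ ∀ j, SOrth (v j) U] :
    (univ.filter fun v : Fin 1 → ι → Bool => ∃ U : Submodule ℝ (EuclideanSpace ℝ ι),
      C.Inv U ∧ U ≠ ⊥ ∧ ∀ j, SOrth (v j) U).card ≤
      {v : ι → Bool | ∃ U : Submodule ℝ (EuclideanSpace ℝ ι),
        C.Inv U ∧ U ≠ ⊥ ∧ SOrth v U}.ncard := by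
  rw [← Set.ncard_coe_finset]
  refine Set.ncard_le_ncard_of_injOn (fun v => v 0) ?_ ?_ (Set.toFinite _)
  · intro v hv
    obtain ⟨U, h3, h4, h5⟩ := (mem_filter.1 (mem_coe.1 hv)).2
    exact ⟨U, h3, h4, h5 0⟩
  · intro v _ w _ h
    funext j
    rw [Subsingleton.elim j 0]
    exact h

/-- Half systems and sign vectors, a single class. -/
theorem few_abs.{u} {G Q : Type} {X P : Type u} [Group G] [Finite G] [MulAction G X] [Fintype X]
    [MulAction G P] [Fintype P] [MulAction G Q] [Fintype Q] (q₀ : Q) (hQ : ∀ q : Q, q = q₀)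
    [MulAction.IsPretransitive G X] {c : X → X}
    (hcc : ∀ x, c (c x) = x) (hne : ∀ x, c x ≠ x)
    (hcg : ∀ (g : G) x, g • c x = c (g • x)) {π : X → P}
    (hπ : ∀ (g : G) x, π (g • x) = g • π x) (hfib : ∀ x y, π x = π y ↔ y = x ∨ y = c x)
    (hsurj : Function.Surjective π) (x₀ : X) {n : ℕ} (hP : Fintype.card P = n) (hn0 : 0 < n)
    {r : ℕ} (hr1 : 1 ≤ r) (hr : Nat.card (MulAction.orbitRel.Quotient G (X × X)) ≤ r) {C : ℝ}
    (hC : 0 < C)
    (hcore : ∀ (Γ : Type) (ι : Type u) [Group Γ] [Fintype Γ]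
      [MulAction Γ ι] [Fintype ι] [DecidableEq ι] [MulAction.IsPretransitive Γ ι] (C₀ : Coc Γ ι)
      (r : ℕ), Nat.card (MulAction.orbitRel.Quotient Γ (ι × ι)) ≤ r → 1 ≤ r →
        2 ≤ Fintype.card ι →
      ({v : ι → Bool | ∃ U : Submodule ℝ (EuclideanSpace ℝ ι),
          C₀.Inv U ∧ U ≠ ⊥ ∧ SOrth v U}.ncard : ℝ)
        ≤ C * ((r : ℝ) * Real.sqrt r *
          Real.sqrt (Real.log (Fintype.card ι) / Fintype.card ι)) * 2 ^ Fintype.card ι) :
    ({Φ : Finset X | (∀ x, x ∈ Φ ↔ c x ∉ Φ) ∧ ∃ f ∈ lat G c Φ, f ≠ 0}.ncard : ℝ)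
      ≤ C * ((r : ℝ) * Real.sqrt r * Real.sqrt (Real.log n / n)) * 2 ^ n := by
  classical
  let κ : P → Q := fun _ => q₀
  have hκ : ∀ (g : G) p, κ (g • p) = g • κ p := fun g _ => (hQ (g • q₀)).symm
  have hκs : Function.Surjective κ := fun q => ⟨π x₀, (hQ q).symm⟩
  have hcardQ : Fintype.card Q = 1 := Fintype.card_eq_one_iff.2 ⟨q₀, hQ⟩
  let act1 := clsAct (G := G) hκ q₀
  obtain ⟨hpre, hcardι, C₀, rr, hrr, hF, hmain⟩ := bad_count_gen hcc hne hcg hπ hfib hsurj hκ hκs
    (fun Φ _ f hf q => ⟨f, hf, fun x => ⟨fun _ => rfl, fun h => absurd (hQ q).symm h⟩⟩)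
    (b := n) (by rw [hP, hcardQ, mul_one]) (r := 1) (by norm_num)
    (by rw [hcardQ]) q₀
  have fΓ : Fintype (MulAction.stabilizer G q₀) := Fintype.ofFinite _
  have horb : Nat.card (MulAction.orbitRel.Quotient (MulAction.stabilizer G q₀)
      ({p : P // κ p = q₀} × {p : P // κ p = q₀})) ≤ r := by
    refine le_trans ?_ hr
    let f : X × X → MulAction.orbitRel.Quotient (MulAction.stabilizer G q₀)
      ({p : P // κ p = q₀} × {p : P // κ p = q₀}) := fun xy =>
      Quotient.mk _ (⟨π xy.1, rfl⟩, ⟨π xy.2, rfl⟩)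
    let F : MulAction.orbitRel.Quotient G (X × X) →
        MulAction.orbitRel.Quotient (MulAction.stabilizer G q₀)
          ({p : P // κ p = q₀} × {p : P // κ p = q₀}) := Quotient.lift f (by
      rintro ⟨x, y⟩ ⟨x', y'⟩ ⟨g, hg⟩
      refine Quotient.sound ⟨⟨g, hQ _⟩, ?_⟩
      have h1 : g • x' = x := congrArg Prod.fst hg
      have h2 : g • y' = y := congrArg Prod.snd hg
      refine Prod.ext (Subtype.ext ?_) (Subtype.ext ?_)
      · show g • π x' = π x
        rw [← hπ, h1]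
      · show g • π y' = π y
        rw [← hπ, h2])
    have : Finite (MulAction.orbitRel.Quotient G (X × X)) := Quotient.finite _
    refine Nat.card_le_card_of_surjective F ?_
    rintro ⟨⟨⟨p, hp⟩, ⟨q, hq⟩⟩⟩
    obtain ⟨x, rfl⟩ := hsurj p
    obtain ⟨y, rfl⟩ := hsurj q
    exact ⟨Quotient.mk _ (x, y), rfl⟩
  rw [hP, one_mul] at hmain
  have h3 := (Nat.le_of_mul_le_mul_right hmain (by positivity)).trans (few_one C₀)
  rcases Nat.lt_or_ge n 2 with hn2 | hn2
  · have h5 := few_line_empty C₀ (by rw [hcardι]; omega)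
    rw [h5] at h3
    rw [Nat.le_zero.1 h3, Nat.cast_zero]
    positivity
  have hc := hcore _ _ C₀ r horb hr1 (by rw [hcardι]; exact hn2)
  rw [hcardι] at hc
  refine le_trans ?_ hc
  exact_mod_cast h3

theorem few_count.{u} : ∃ C : ℝ, 0 < C ∧ ∀ {K : Type u} [Field K] [NumberField K] [IsCMField K]
    {n : ℕ}, finrank ℚ K = 2 * n → ∀ {α : K}, IntermediateField.adjoin ℚ {α} = ⊤ →
    ∀ {r : ℕ}, (UniqueFactorizationMonoid.factors
      ((minpoly ℚ α).map (algebraMap ℚ K))).card = r →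
    ({Φ : Finset (K →+* ℂ) | IsCMType Φ ∧ ¬ HodgeRingGeneratedByDivisors Φ}.ncard : ℝ)
      ≤ C * ((r : ℝ) * Real.sqrt r * Real.sqrt (Real.log n / n)) * 2 ^ n := by
  classical
  obtain ⟨C, hC, hcore⟩ := few_core.{0, u}
  refine ⟨C, hC, ?_⟩
  intro K _ _ _ n hK α hα r hr
  let cc : (K →+* ℂ) → (K →+* ℂ) := ComplexEmbedding.conjugate
  have hcc : ∀ x, cc (cc x) = x := conj_conj
  have hcg : ∀ (g : GG K) x, g • cc x = cc (g • x) := hcgK
  have hne : ∀ x, cc x ≠ x := conj_ne
  let P := Quotient (pairSetoid cc hcc)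
  let actP : MulAction (GG K) P := pairAction cc hcc hcg
  let actQ : MulAction (GG K) Unit := unitAct (GG K)
  let π : (K →+* ℂ) → P := Quotient.mk (pairSetoid cc hcc)
  have hπ : ∀ (g : GG K) x, π (g • x) = g • π x := fun _ _ => rfl
  have hfib : ∀ x y, π x = π y ↔ y = x ∨ y = cc x := by
    intro x y
    exact Quotient.eq
  have hsurj : Function.Surjective π := Quotient.exists_rep
  have : Finite P := Finite.of_surjective π hsurj
  let fP : Fintype P := Fintype.ofFinite P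
  obtain ⟨x₀⟩ : Nonempty (K →+* ℂ) := inferInstance
  have hfibre : ∀ p : P, (univ.filter fun x => π x = p).card = 2 := by
    intro p
    obtain ⟨x, rfl⟩ := hsurj p
    have h3 : (univ.filter fun y => π y = π x) = {x, cc x} := by
      ext y
      simp only [mem_filter, mem_univ, true_and, mem_insert, mem_singleton]
      rw [eq_comm, hfib]
    rw [h3, card_pair (Ne.symm (hne x))]
  have hcardP : Fintype.card P = n := by
    have h1 : Fintype.card (K →+* ℂ) = 2 * Fintype.card P := by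
      rw [← card_univ, card_eq_sum_card_fiberwise (f := π) (t := univ)
        (fun _ _ => mem_coe.2 (mem_univ _)), sum_congr rfl fun p _ => hfibre p, sum_const,
        card_univ, smul_eq_mul, mul_comm]
    rw [NumberField.Embeddings.card K ℂ, hK] at h1
    omega
  have hn0 : 0 < n := by
    rcases Nat.eq_zero_or_pos n with rfl | h
    · rw [mul_zero] at hK
      exact absurd hK finrank_pos.ne'
    · exact h
  have horb := card_orbits_le hα
  rw [hr] at horb
  have hr1 : 1 ≤ r := by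
    refine le_trans ?_ horb
    have hne' : Nonempty (MulAction.orbitRel.Quotient (GG K) ((K →+* ℂ) × (K →+* ℂ))) :=
      ⟨Quotient.mk _ (x₀, x₀)⟩
    have : Finite (MulAction.orbitRel.Quotient (GG K) ((K →+* ℂ) × (K →+* ℂ))) :=
      Quotient.finite _
    exact Nat.card_pos
  have hmain := few_abs () (fun _ => rfl) hcc hne hcg hπ hfib hsurj x₀ hcardP hn0 hr1 horb hC hcore
  refine le_trans ?_ hmain
  exact_mod_cast Set.ncard_le_ncard bad_subset_lat (Set.toFinite _)

end Pool.MP43e44c
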