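import Pool.Agent.H.MP_43e44c_ag.MQ.Step

/-!
The number of sign vectors killed by a nonzero equivariant map to a simple quotient, mod p.
-/

set_option autoImplicit false

open Finset Module

namespace Pool.MP43e44c

section Pact

variable {Γ ι : Type*} [Group Γ] [MulAction Γ ι] (C : Coc Γ ι) {R : Type*} [CommRing R]

theorem comp_pact {τ : ι → ι → R} (hτ : C.Eqv R τ) (g : Γ) (j : ι) :
    C.pact R g (fun i => τ i j) = (C.sgn g j : R) • fun i => τ i (g • j) := by
  funext i
  have h1 := hτ g (g⁻¹ • i) j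
  rw [smul_inv_smul] at h1
  have h2 : (C.sgn g j : R) * (C.sgn g j : R) = 1 := by
    rw [← Int.cast_mul, C.sgn_mul_self, Int.cast_one]
  show (C.sgn g (g⁻¹ • i) : R) * τ (g⁻¹ • i) j = (C.sgn g j : R) * τ i (g • j)
  rw [h1]
  linear_combination (-(C.sgn g (g⁻¹ • i) : R) * τ (g⁻¹ • i) j) * h2

theorem comp_col {τ : ι → ι → R} (hτ : C.Eqv R τ) (g : Γ) (j : ι) :
    (fun i => τ i (g • j)) = (C.sgn g j : R) • C.pact R g (fun i => τ i j) := by
  rw [comp_pact C hτ, smul_smul, ← Int.cast_mul, C.sgn_mul_self, Int.cast_one, one_smul]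

end Pact

section Dim

variable {K E : Type*} [Field K] [AddCommGroup E] [Module K E] [Module.Finite K E]

theorem comp_finrank {V' V : Submodule K E} (h : V' ≤ V) :
    finrank K (V.map V'.mkQ) = finrank K V - finrank K V' := by
  have h1 := LinearMap.finrank_range_add_finrank_ker (V'.mkQ ∘ₗ V.subtype)
  have h2 : LinearMap.range (V'.mkQ ∘ₗ V.subtype) = V.map V'.mkQ := by
    rw [LinearMap.range_comp, Submodule.range_subtype]
  have h3 : LinearMap.ker (V'.mkQ ∘ₗ V.subtype) = V'.comap V.subtype := by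
    rw [LinearMap.ker_comp, Submodule.ker_mkQ]
  rw [h2, h3, (Submodule.comapSubtypeEquivOfLe h).finrank_eq] at h1
  omega

end Dim

variable {Γ ι : Type*} [Group Γ] [Fintype Γ] [MulAction Γ ι] [Fintype ι]
  [MulAction.IsPretransitive Γ ι] (C : Coc Γ ι) {p : ℕ} [Fact p.Prime]

/-- If one column of an equivariant matrix lies in an invariant subspace, all do:
`col (g • j) = ± g · col j` (from `Eqv` and `pact_apply_smul`), and the action is transitive. -/
theorem col_mem {V : Submodule (ZMod p) (ι → ZMod p)} (hV : C.PInv V) {τ : ι → ι → ZMod p}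
    (hτ : C.Eqv (ZMod p) τ) {j : ι} (hj : (fun i => τ i j) ∈ V) (j' : ι) :
    (fun i => τ i j') ∈ V := by
  obtain ⟨g, rfl⟩ := MulAction.exists_smul_eq Γ j j'
  rw [comp_col C hτ]
  exact Submodule.smul_mem _ _ (hV g _ hj)

theorem comp_sum_mkQ (V' : Submodule (ZMod p) (ι → ZMod p)) (τ : ι → ι → ZMod p)
    (c : ι → ZMod p) :
    ∑ j, c j • V'.mkQ (fun i => τ i j) = V'.mkQ (fun i => ∑ j, τ i j * c j) := by
  have h1 : (fun i => ∑ j, τ i j * c j) = ∑ j, c j • (fun i => τ i j) := by
    funext i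
    rw [Finset.sum_apply]
    exact sum_congr rfl fun j _ => mul_comm _ _
  rw [h1, map_sum]
  exact sum_congr rfl fun j _ => (map_smul _ _ _).symm

/-- For `V' < V` invariant and without invariant subspaces strictly between them, an equivariant
`τ` with columns in `V`, not all in `V'`: let `E = (ι → ZMod p) ⧸ V'` and `x j` the class of the
`j`-th column.  The span `X` of the `x j` has dimension `d = finrank V - finrank V'` (its preimage
is invariant by `col_mem`-type computation, contains `V'` strictly, is contained in `V`, hence is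
`V`).  Apply `step_span` (its hypothesis `hx`: if `∑ c_j col_j ∈ V'`, apply `g`:
`∑ c_j sgn g j col_{g j} ∈ V'`).  So
`#{v | τ (svr v) ∈ V'} * p ^ d ≤ 2 ^ n * β`. -/
theorem one_map_count {V' V : Submodule (ZMod p) (ι → ZMod p)} (hV' : C.PInv V')
    (hV : C.PInv V) (hlt : V' < V) (hmax : ∀ W, C.PInv W → V' < W → W ≤ V → W = V)
    {β : ℝ} (hβ : ∀ d : ℕ, 0 < d → d ≤ finrank (ZMod p) V → (∑ a : ZMod p,
        |Real.cos (2 * Real.pi * (a.val : ℝ) / p)| ^ ((Fintype.card ι : ℝ) / d)) ^ d ≤ β)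
    {τ : ι → ι → ZMod p} (hτ : C.Eqv (ZMod p) τ) (hτV : ∀ j, (fun i => τ i j) ∈ V)
    {j : ι} (hj : (fun i => τ i j) ∉ V') :
    ({v : ι → Bool | (fun i => ∑ j, τ i j * svr (ZMod p) v j) ∈ V'}.ncard : ℝ)
      * (p : ℝ) ^ (finrank (ZMod p) V - finrank (ZMod p) V') ≤ 2 ^ Fintype.card ι * β := by
  classical
  have hdlt : finrank (ZMod p) V' < finrank (ZMod p) V := Submodule.finrank_lt_finrank_of_lt hlt
  obtain ⟨d, hd⟩ : ∃ d, d = finrank (ZMod p) V - finrank (ZMod p) V' := ⟨_, rfl⟩
  have hd0 : 0 < d := by omega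
  -- the span of the columns and of the small subspace
  have hW : Submodule.span (ZMod p) (Set.range fun j => (fun i => τ i j)) ⊔ V' = V := by
    apply hmax
    · intro g x hx
      obtain ⟨y, hy, z, hz, rfl⟩ := Submodule.mem_sup.1 hx
      clear hx
      rw [map_add]
      refine Submodule.add_mem _ ?_ (Submodule.mem_sup_right (hV' g z hz))
      apply Submodule.mem_sup_left
      induction hy using Submodule.span_induction with
      | mem y hy =>
        obtain ⟨k, rfl⟩ := hy
        show C.pact (ZMod p) g (fun i => τ i k) ∈ _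
        rw [comp_pact C hτ]
        exact Submodule.smul_mem _ _ (Submodule.subset_span ⟨g • k, rfl⟩)
      | zero => rw [map_zero]; exact Submodule.zero_mem _
      | add a b _ _ ha hb =>
        rw [map_add]
        exact Submodule.add_mem _ ha hb
      | smul c a _ ha =>
        rw [map_smul]
        exact Submodule.smul_mem _ _ ha
    · refine lt_of_le_of_ne le_sup_right fun h => hj ?_
      rw [h]
      exact Submodule.mem_sup_left (Submodule.subset_span ⟨j, rfl⟩)
    · refine sup_le ?_ hlt.le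
      rw [Submodule.span_le]
      rintro _ ⟨k, rfl⟩
      exact hτV k
  have hspan : finrank (ZMod p) (Submodule.span (ZMod p)
      (Set.range fun j => V'.mkQ (fun i => τ i j))) = d := by
    have h1 : Submodule.span (ZMod p) (Set.range fun j => V'.mkQ (fun i => τ i j)) =
        V.map V'.mkQ := by
      rw [← hW, Submodule.map_sup, Submodule.map_span, ← Set.range_comp]
      have h2 : V'.map V'.mkQ = ⊥ := by
        rw [← le_bot_iff, Submodule.map_le_iff_le_comap]
        intro x hx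
        rw [Submodule.mem_comap, Submodule.mem_bot, Submodule.mkQ_apply,
          Submodule.Quotient.mk_eq_zero]
        exact hx
      rw [h2, sup_bot_eq]
      rfl
    rw [h1, comp_finrank hlt.le, hd]
  have hstep := step_span C (fun j => V'.mkQ (fun i => τ i j)) (fun g c hc => by
    rw [comp_sum_mkQ, Submodule.mkQ_apply, Submodule.Quotient.mk_eq_zero] at hc
    have h1 := hV' g _ hc
    have h2 : C.pact (ZMod p) g (fun i => ∑ j, τ i j * c j) =
        ∑ j, (c j * (C.sgn g j : ZMod p)) • (fun i => τ i (g • j)) := by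
      have h3 : (fun i => ∑ j, τ i j * c j) = ∑ j, c j • (fun i => τ i j) := by
        funext i
        rw [Finset.sum_apply]
        exact sum_congr rfl fun j _ => mul_comm _ _
      rw [h3, map_sum]
      refine sum_congr rfl fun j _ => ?_
      rw [map_smul, comp_pact C hτ, smul_smul]
    rw [h2] at h1
    rw [← Submodule.Quotient.mk_eq_zero, ← Submodule.mkQ_apply, map_sum] at h1
    rw [← h1]
    exact sum_congr rfl fun j _ => (map_smul _ _ _).symm) hd0 hspan
  have hset : {v : ι → Bool | (fun i => ∑ j, τ i j * svr (ZMod p) v j) ∈ V'} =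
      {v : ι → Bool | ∑ j, svr (ZMod p) v j • V'.mkQ (fun i => τ i j) = 0} := by
    ext v
    rw [Set.mem_setOf_eq, Set.mem_setOf_eq, comp_sum_mkQ, Submodule.mkQ_apply,
      Submodule.Quotient.mk_eq_zero]
  rw [hset, ← hd]
  refine hstep.trans ?_
  have h4 := hβ d hd0 (by omega)
  gcongr

/-- Let `d = finrank V - finrank V'` and `Q = V ⧸ V'` (that is
`V ⧸ V'.comap V.subtype`), a set with `p ^ d` elements; fix `j₀ : ι`.  Let `A ⊆ Q` be the set of the
classes of the `j₀`-th columns of the equivariant `τ` with columns in `V`; for `q ∈ A` choose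
`τ_q`, and let `S_q = {v | τ_q (svr v) ∈ V'}`; for `q ∈ A`, `q ≠ 0` one has
`card S_q * p ^ d ≤ 2 ^ n β` by `one_map_count`.  If `v` is in the set `S` to be counted,
with `τ`, let `q₀` be the class of the `j₀`-th column of `τ`; it is not `0` by `col_mem`.  For each
`c ≠ 0` in `ZMod p` the class of the `j₀`-th column of `c τ` is `c q₀`, so the matrix
`c τ - τ_{c q₀}` is equivariant with `j₀`-th column in `V'`, so all its columns are in `V'`
(`col_mem`), so `τ_{c q₀} (svr v) ∈ V'`, i.e. `v ∈ S_{c q₀}`.  So every `v ∈ S` lies in at least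
`p - 1` sets `S_q`, `q ∈ A \ {0}`, and `(p - 1) card S ≤ ∑_{q ≠ 0} card S_q ≤ p ^ d * 2 ^ n β / p ^ d`. -/
theorem step_count {V' V : Submodule (ZMod p) (ι → ZMod p)} (hV' : C.PInv V')
    (hV : C.PInv V) (hlt : V' < V) (hmax : ∀ W, C.PInv W → V' < W → W ≤ V → W = V)
    {β : ℝ} (hβ : ∀ d : ℕ, 0 < d → d ≤ finrank (ZMod p) V → (∑ a : ZMod p,
        |Real.cos (2 * Real.pi * (a.val : ℝ) / p)| ^ ((Fintype.card ι : ℝ) / d)) ^ d ≤ β) :
    ({v : ι → Bool | ∃ τ : ι → ι → ZMod p, C.Eqv (ZMod p) τ ∧ (∀ j, (fun i => τ i j) ∈ V) ∧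
        (∃ j, (fun i => τ i j) ∉ V') ∧
        (fun i => ∑ j, τ i j * svr (ZMod p) v j) ∈ V'}.ncard : ℝ) * ((p : ℝ) - 1)
      ≤ 2 ^ Fintype.card ι * β := by
  classical
  have hdlt : finrank (ZMod p) V' < finrank (ZMod p) V := Submodule.finrank_lt_finrank_of_lt hlt
  have hβ0 : 0 ≤ β := by
    refine le_trans ?_ (hβ (finrank (ZMod p) V) (by omega) le_rfl)
    refine pow_nonneg (sum_nonneg fun a _ => Real.rpow_nonneg (abs_nonneg _) _) _
  have hp : (0 : ℝ) < p := by exact_mod_cast (Fact.out : p.Prime).pos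
  set S : Finset (ι → Bool) := univ.filter fun v => ∃ τ : ι → ι → ZMod p, C.Eqv (ZMod p) τ ∧
      (∀ j, (fun i => τ i j) ∈ V) ∧ (∃ j, (fun i => τ i j) ∉ V') ∧
        (fun i => ∑ j, τ i j * svr (ZMod p) v j) ∈ V' with hS
  have hSn : {v : ι → Bool | ∃ τ : ι → ι → ZMod p, C.Eqv (ZMod p) τ ∧
      (∀ j, (fun i => τ i j) ∈ V) ∧ (∃ j, (fun i => τ i j) ∉ V') ∧
        (fun i => ∑ j, τ i j * svr (ZMod p) v j) ∈ V'}.ncard = S.card := by
    rw [← Set.ncard_coe_finset]
    congr 1
    ext v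
    simp [hS]
  rw [hSn]
  have hSmem : ∀ v ∈ S, ∃ τ : ι → ι → ZMod p, C.Eqv (ZMod p) τ ∧
      (∀ j, (fun i => τ i j) ∈ V) ∧ (∃ j, (fun i => τ i j) ∉ V') ∧
        (fun i => ∑ j, τ i j * svr (ZMod p) v j) ∈ V' := fun v hv => (mem_filter.1 hv).2
  rcases isEmpty_or_nonempty ι with hι | ⟨⟨j₀⟩⟩
  · have hS0 : S = ∅ := by
      refine eq_empty_iff_forall_notMem.2 fun v hv => ?_
      obtain ⟨τ, -, -, ⟨j, -⟩, -⟩ := hSmem v hv
      exact hι.false j
    rw [hS0, card_empty, Nat.cast_zero, zero_mul]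
    positivity
  have fE : Fintype ((ι → ZMod p) ⧸ V') := Fintype.ofFinite _
  let Pr : ((ι → ZMod p) ⧸ V') → (ι → ι → ZMod p) → Prop := fun q τ =>
    C.Eqv (ZMod p) τ ∧ (∀ j, (fun i => τ i j) ∈ V) ∧ V'.mkQ (fun i => τ i j₀) = q
  let A : Finset ((ι → ZMod p) ⧸ V') := univ.filter fun q => q ≠ 0 ∧ ∃ τ, Pr q τ
  have hch : ∀ q, ∃ τ : ι → ι → ZMod p, q ∈ A → Pr q τ := by
    intro q
    by_cases hq : q ∈ A
    · obtain ⟨τ, hτ⟩ := (mem_filter.1 hq).2.2
      exact ⟨τ, fun _ => hτ⟩
    · exact ⟨0, fun h => absurd h hq⟩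
  choose T hT using hch
  let SS : ((ι → ZMod p) ⧸ V') → Finset (ι → Bool) := fun q =>
    univ.filter fun v => (fun i => ∑ j, T q i j * svr (ZMod p) v j) ∈ V'
  obtain ⟨d, hd⟩ : ∃ d, d = finrank (ZMod p) V - finrank (ZMod p) V' := ⟨_, rfl⟩
  have hclaim1 : ∀ q ∈ A, ((SS q).card : ℝ) * (p : ℝ) ^ d ≤ 2 ^ Fintype.card ι * β := by
    intro q hq
    obtain ⟨h1, h2, h3⟩ := hT q hq
    have hq0 : q ≠ 0 := (mem_filter.1 hq).2.1
    have h4 : (fun i => T q i j₀) ∉ V' := by
      intro h5
      apply hq0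
      rw [← h3, Submodule.mkQ_apply, Submodule.Quotient.mk_eq_zero]
      exact h5
    have h5 := one_map_count C hV' hV hlt hmax hβ h1 h2 h4
    rw [← hd] at h5
    have h6 : {v : ι → Bool | (fun i => ∑ j, T q i j * svr (ZMod p) v j) ∈ V'}.ncard =
        (SS q).card := by
      rw [← Set.ncard_coe_finset]
      congr 1
      ext v
      simp [SS]
    rw [h6] at h5
    exact h5
  have hclaim2 : ∀ v ∈ S, p - 1 ≤ (A.filter fun q => v ∈ SS q).card := by
    intro v hv
    obtain ⟨τ, hτ, hτV, ⟨j, hj⟩, hτv⟩ := (mem_filter.1 hv).2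
    have hq0 : V'.mkQ (fun i => τ i j₀) ≠ 0 := by
      intro h
      rw [Submodule.mkQ_apply, Submodule.Quotient.mk_eq_zero] at h
      exact hj (col_mem C hV' hτ h j)
    have hcard : (univ.erase (0 : ZMod p)).card = p - 1 := by
      rw [card_erase_of_mem (mem_univ _), card_univ, ZMod.card]
    rw [← hcard]
    refine card_le_card_of_injOn (fun c => c • V'.mkQ (fun i => τ i j₀)) ?_ ?_
    · intro c hc
      have hc0 : c ≠ 0 := (mem_erase.1 (mem_coe.1 hc)).1
      have hcE : C.Eqv (ZMod p) (fun i j => c * τ i j) := by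
        intro g i k
        show c * τ (g • i) (g • k) = _
        rw [hτ g i k]
        ring
      have hcV : ∀ k, (fun i => c * τ i k) ∈ V := fun k => Submodule.smul_mem _ c (hτV k)
      have hcq : V'.mkQ (fun i => c * τ i j₀) = c • V'.mkQ (fun i => τ i j₀) :=
        map_smul V'.mkQ c (fun i => τ i j₀)
      have hA : c • V'.mkQ (fun i => τ i j₀) ∈ A :=
        mem_filter.2 ⟨mem_univ _, smul_ne_zero hc0 hq0, _, hcE, hcV, hcq⟩
      refine mem_coe.2 (mem_filter.2 ⟨hA, mem_filter.2 ⟨mem_univ _, ?_⟩⟩)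
      obtain ⟨h1, h2, h3⟩ := hT _ hA
      generalize hTq : T (c • V'.mkQ (fun i => τ i j₀)) = U at h1 h2 h3
      have hDE : C.Eqv (ZMod p) (fun i j => c * τ i j - U i j) := by
        intro g i k
        have e1 := hcE g i k
        have e2 := h1 g i k
        have e3 : c * τ (g • i) (g • k) = (C.sgn g i : ZMod p) * (C.sgn g k : ZMod p) *
          (c * τ i k) := e1
        show c * τ (g • i) (g • k) - U (g • i) (g • k) = _
        rw [e3, e2]
        ring
      have hD0 : (fun i => c * τ i j₀ - U i j₀) ∈ V' := by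
        rw [← Submodule.Quotient.mk_eq_zero, ← Submodule.mkQ_apply]
        have e1 : (fun i => c * τ i j₀ - U i j₀) = (fun i => c * τ i j₀) - fun i => U i j₀ := rfl
        rw [e1, map_sub, hcq, h3, sub_self]
      have hDall := fun k => col_mem C hV' hDE hD0 k
      have hDv : (fun i => ∑ k, (c * τ i k - U i k) * svr (ZMod p) v k) ∈ V' := by
        have e1 : (fun i => ∑ k, (c * τ i k - U i k) * svr (ZMod p) v k) =
            ∑ k, svr (ZMod p) v k • (fun i => c * τ i k - U i k) := by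
          funext i
          rw [Finset.sum_apply]
          exact sum_congr rfl fun k _ => mul_comm _ _
        rw [e1]
        exact Submodule.sum_mem _ fun k _ => Submodule.smul_mem _ _ (hDall k)
      have e2 : (fun i => ∑ k, U i k * svr (ZMod p) v k) =
          c • (fun i => ∑ k, τ i k * svr (ZMod p) v k) -
            fun i => ∑ k, (c * τ i k - U i k) * svr (ZMod p) v k := by
        funext i
        show ∑ k, U i k * svr (ZMod p) v k = c * (∑ k, τ i k * svr (ZMod p) v k) -
          ∑ k, (c * τ i k - U i k) * svr (ZMod p) v k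
        rw [mul_sum, ← sum_sub_distrib]
        refine sum_congr rfl fun k _ => ?_
        ring
      rw [e2]
      exact Submodule.sub_mem _ (Submodule.smul_mem _ _ hτv) hDv
    · intro c _ c' _ h
      exact smul_left_injective (ZMod p) hq0 h
  have hclaim3 : A.card ≤ p ^ d := by
    have h1 : (A : Set ((ι → ZMod p) ⧸ V')) ⊆ (V.map V'.mkQ : Set ((ι → ZMod p) ⧸ V')) := by
      intro q hq
      obtain ⟨-, -, τ, -, h2, h3⟩ := mem_filter.1 (mem_coe.1 hq)
      exact ⟨_, h2 j₀, h3⟩
    have h2 := Set.ncard_le_ncard h1 (Set.toFinite _)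
    rw [Set.ncard_coe_finset] at h2
    refine h2.trans ?_
    have h3 : ((V.map V'.mkQ : Submodule (ZMod p) ((ι → ZMod p) ⧸ V')) :
        Set ((ι → ZMod p) ⧸ V')).ncard = Nat.card (V.map V'.mkQ) := rfl
    rw [h3, Module.natCard_eq_pow_finrank (K := ZMod p), comp_finrank hlt.le, Nat.card_zmod, hd]
  have hdouble : (S.card : ℝ) * ((p : ℝ) - 1) ≤ ∑ q ∈ A, ((SS q).card : ℝ) := by
    have h1 : S.card * (p - 1) ≤ ∑ q ∈ A, (SS q).card := by
      calc S.card * (p - 1) = ∑ v ∈ S, (p - 1) := by rw [sum_const, smul_eq_mul]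
        _ ≤ ∑ v ∈ S, (A.filter fun q => v ∈ SS q).card := sum_le_sum hclaim2
        _ = ∑ v ∈ S, ∑ q ∈ A, if v ∈ SS q then 1 else 0 := by
          refine sum_congr rfl fun v _ => ?_
          rw [card_filter]
        _ = ∑ q ∈ A, ∑ v ∈ S, if v ∈ SS q then 1 else 0 := sum_comm
        _ ≤ ∑ q ∈ A, (SS q).card := by
          refine sum_le_sum fun q _ => ?_
          rw [← card_filter]
          refine card_le_card fun v hv => ?_
          exact (mem_filter.1 hv).2
    have h2 : ((p - 1 : ℕ) : ℝ) = (p : ℝ) - 1 := by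
      rw [Nat.cast_sub (Fact.out : p.Prime).one_le, Nat.cast_one]
    rw [← h2]
    exact_mod_cast h1
  refine hdouble.trans ?_
  have hpd : (0 : ℝ) < (p : ℝ) ^ d := by positivity
  refine le_of_mul_le_mul_right ?_ hpd
  calc (∑ q ∈ A, ((SS q).card : ℝ)) * (p : ℝ) ^ d = ∑ q ∈ A, ((SS q).card : ℝ) * (p : ℝ) ^ d := by
        rw [sum_mul]
    _ ≤ ∑ q ∈ A, 2 ^ Fintype.card ι * β := sum_le_sum hclaim1
    _ = (A.card : ℝ) * (2 ^ Fintype.card ι * β) := by rw [sum_const, nsmul_eq_mul]
    _ ≤ (p : ℝ) ^ d * (2 ^ Fintype.card ι * β) := by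
        have h3 : (A.card : ℝ) ≤ (p : ℝ) ^ d := by exact_mod_cast hclaim3
        gcongr
    _ = 2 ^ Fintype.card ι * β * (p : ℝ) ^ d := by ring

end Pool.MP43e44c
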