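import Mathlib

/-!
Cosines of rational angles with odd prime denominator; the choice of the prime.
-/

set_option autoImplicit false

open Finset

namespace Pool.MP43e44c

/-- `p` odd prime, `a ≠ 0` mod `p`.  Let `k` be the integer nearest to `2 a / p`, and
`x = π (2 a / p - k)`, so `|x| ≤ π / 2`, `|cos (2 π a / p)| = |cos x| = cos x` and, since
`2 a - k p` is a nonzero integer (`p` does not divide `2 a`), `|x| ≥ π / p`.  By
`Real.cos_quadratic_upper_bound` (`cos x ≤ 1 - 2 / π ^ 2 * x ^ 2` for `|x| ≤ π`) the claim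
follows. -/
theorem abs_cos_le {p : ℕ} [Fact p.Prime] (hp2 : p ≠ 2) {a : ZMod p} (ha : a ≠ 0) :
    |Real.cos (2 * Real.pi * (a.val : ℝ) / p)| ≤ 1 - 2 / (p : ℝ) ^ 2 := by
  have hp : p.Prime := Fact.out
  have hp0 : (0 : ℝ) < p := by exact_mod_cast hp.pos
  have hpi := Real.pi_pos
  set t : ℝ := 2 * (a.val : ℝ) / p with ht
  set k : ℤ := round t with hk
  have h1 : |t - k| ≤ 1 / 2 := abs_sub_round t
  have h2 : 2 * Real.pi * (a.val : ℝ) / p = Real.pi * (t - k) + k * Real.pi := by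
    rw [ht]; ring
  have h3 : |Real.cos (2 * Real.pi * (a.val : ℝ) / p)| = |Real.cos (Real.pi * (t - k))| := by
    rw [h2, Real.cos_add_int_mul_pi, abs_mul]
    have : |((-1 : ℝ)) ^ k| = 1 := by
      rw [abs_zpow]; simp
    rw [this, one_mul]
  have h4 := abs_le.1 h1
  have h5 : 0 ≤ Real.cos (Real.pi * (t - k)) := by
    apply Real.cos_nonneg_of_mem_Icc
    constructor <;> nlinarith
  rw [h3, abs_of_nonneg h5]
  have h6 : |Real.pi * (t - k)| ≤ Real.pi := by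
    rw [abs_mul, abs_of_pos hpi]
    nlinarith
  refine (Real.cos_le_one_sub_mul_cos_sq h6).trans ?_
  have h7 : 2 / Real.pi ^ 2 * (Real.pi * (t - k)) ^ 2 = 2 * (t - k) ^ 2 := by
    field_simp
  rw [h7]
  have h8 : (2 * (a.val : ℤ) - k * p : ℤ) ≠ 0 := by
    intro h
    have hd : (p : ℤ) ∣ 2 * (a.val : ℤ) := ⟨k, by linarith⟩
    have hd' : p ∣ 2 * a.val := by exact_mod_cast hd
    rcases (Nat.Prime.dvd_mul hp).1 hd' with h' | h'
    · exact hp2 ((Nat.prime_dvd_prime_iff_eq hp Nat.prime_two).1 h')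
    · have hlt : a.val < p := ZMod.val_lt a
      have : a.val = 0 := Nat.eq_zero_of_dvd_of_lt h' hlt
      exact ha ((ZMod.val_eq_zero a).1 this)
  have h9 : (1 : ℝ) ≤ (2 * (a.val : ℝ) - k * p) ^ 2 := by
    have : (1 : ℤ) ≤ (2 * (a.val : ℤ) - k * p : ℤ) ^ 2 := by
      have := sq_pos_of_ne_zero h8
      omega
    exact_mod_cast this
  have h10 : t - k = (2 * (a.val : ℝ) - k * p) / p := by
    rw [ht]; field_simp
  rw [h10, div_pow]
  have h11 : 2 / (p : ℝ) ^ 2 ≤ 2 * ((2 * (a.val : ℝ) - k * p) ^ 2 / (p : ℝ) ^ 2) := by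
    rw [← mul_div_assoc]
    gcongr
    linarith
  linarith

/-- The term `a = 0` is `1`; the others are at most `(1 - 2 / p ^ 2) ^ k ≤ exp (- 2 k / p ^ 2)`
(`Real.one_sub_le_exp_neg`, `Real.rpow_le_rpow`, `Real.exp_mul`). -/
theorem sum_cos_le {p : ℕ} [Fact p.Prime] (hp2 : p ≠ 2) {k : ℝ} (hk : 0 ≤ k) :
    ∑ a : ZMod p, |Real.cos (2 * Real.pi * (a.val : ℝ) / p)| ^ k
      ≤ 1 + p * Real.exp (-(2 * k / (p : ℝ) ^ 2)) := by
  classical
  have hp : p.Prime := Fact.out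
  rw [← Finset.add_sum_erase Finset.univ _ (Finset.mem_univ (0 : ZMod p))]
  have h0 : |Real.cos (2 * Real.pi * ((0 : ZMod p).val : ℝ) / p)| ^ k = 1 := by
    simp
  rw [h0]
  have h1 : ∀ a ∈ Finset.univ.erase (0 : ZMod p),
      |Real.cos (2 * Real.pi * (a.val : ℝ) / p)| ^ k ≤ Real.exp (-(2 * k / (p : ℝ) ^ 2)) := by
    intro a ha
    have ha0 : a ≠ 0 := (Finset.mem_erase.1 ha).1
    have h2 := abs_cos_le hp2 ha0
    have h3 : |Real.cos (2 * Real.pi * (a.val : ℝ) / p)| ≤ Real.exp (-(2 / (p : ℝ) ^ 2)) :=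
      h2.trans (Real.one_sub_le_exp_neg _)
    have h4 := Real.rpow_le_rpow (abs_nonneg _) h3 hk
    refine h4.trans (le_of_eq ?_)
    rw [← Real.exp_mul]
    congr 1
    ring
  have h5 := Finset.sum_le_card_nsmul _ _ _ h1
  rw [Finset.card_erase_of_mem (Finset.mem_univ _), Finset.card_univ, ZMod.card, nsmul_eq_mul] at h5
  have h6 : ((p - 1 : ℕ) : ℝ) * Real.exp (-(2 * k / (p : ℝ) ^ 2))
      ≤ p * Real.exp (-(2 * k / (p : ℝ) ^ 2)) := by
    apply mul_le_mul_of_nonneg_right _ (Real.exp_pos _).le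
    exact_mod_cast Nat.sub_le p 1
  linarith

end Pool.MP43e44c
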