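import Pool.Agent.H.MP_43e44c_ag.MQ.Comp
import Pool.Agent.H.MP_43e44c_ag.MQ.Cos

/-!
The number of sign vectors killed by a nonzero equivariant map to a subspace, mod p.
-/

set_option autoImplicit false

open Finset Module

namespace Pool.MP43e44c

variable {Γ ι : Type*} [Group Γ] [Fintype Γ] [MulAction Γ ι] [Fintype ι]
  [MulAction.IsPretransitive Γ ι] (C : Coc Γ ι) {p : ℕ} [Fact p.Prime]

/-- Induction on `finrank V`: with `β` as in the hypothesis (for all `d ≤ m`),
`card (KillSet V) * (p - 1) ≤ finrank V * 2 ^ n * β` for `finrank V ≤ m`.  If `V = ⊥` the set is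
empty (a matrix all of whose columns are `0` is `0`).  Otherwise choose an invariant `V' < V` of
maximal dimension; for `v ∈ KillSet V` with `τ`: either all columns of `τ` are in `V'` and
`v ∈ KillSet V'`, or `v` is in the set of `step_count`. -/
theorem kill_count_beta {m : ℕ} {β : ℝ}
    (hβ : ∀ d : ℕ, 0 < d → d ≤ m → (∑ a : ZMod p,
        |Real.cos (2 * Real.pi * (a.val : ℝ) / p)| ^ ((Fintype.card ι : ℝ) / d)) ^ d ≤ β)
    (V : Submodule (ZMod p) (ι → ZMod p)) (hV : C.PInv V) (hm : finrank (ZMod p) V ≤ m) :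
    ((C.KillSet V).ncard : ℝ) * ((p : ℝ) - 1)
      ≤ finrank (ZMod p) V * (2 ^ Fintype.card ι * β) := by
  have key : ∀ N : ℕ, ∀ V : Submodule (ZMod p) (ι → ZMod p), C.PInv V →
      finrank (ZMod p) V ≤ m → finrank (ZMod p) V = N →
      ((C.KillSet V).ncard : ℝ) * ((p : ℝ) - 1) ≤ N * (2 ^ Fintype.card ι * β) := by
    intro N
    induction N using Nat.strong_induction_on with
    | _ N ih =>
      intro V hV hm hN
      rcases Nat.eq_zero_or_pos N with h0 | hpos
      · have hbot : V = ⊥ := Submodule.finrank_eq_zero.1 (hN.trans h0)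
        have hempty : C.KillSet V = ∅ := by
          rw [Set.eq_empty_iff_forall_notMem]
          rintro v ⟨τ, _, hτ0, hτV, _⟩
          apply hτ0
          funext i j
          have h1 := hτV j
          rw [hbot, Submodule.mem_bot] at h1
          exact congrFun h1 i
        rw [hempty, h0]
        simp
      · have hβ0 : 0 ≤ β := by
          refine le_trans ?_ (hβ 1 one_pos (by omega))
          rw [pow_one]
          exact Finset.sum_nonneg fun a _ => Real.rpow_nonneg (abs_nonneg _) _
        have hVne : V ≠ ⊥ := by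
          rintro rfl
          rw [finrank_bot] at hN
          omega
        obtain ⟨V', ⟨hV', hlt⟩, hmin⟩ := WellFounded.has_min
          (wellFounded_gt : WellFounded ((· > ·) : Submodule (ZMod p) (ι → ZMod p) →
            Submodule (ZMod p) (ι → ZMod p) → Prop))
          {W : Submodule (ZMod p) (ι → ZMod p) | C.PInv W ∧ W < V}
          ⟨⊥, ⟨fun g x hx => by
            rw [Submodule.mem_bot] at hx ⊢
            rw [hx, map_zero], bot_lt_iff_ne_bot.2 hVne⟩⟩
        have hmax : ∀ W, C.PInv W → V' < W → W ≤ V → W = V := by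
          intro W hW h1 h2
          by_contra h3
          exact hmin W ⟨hW, lt_of_le_of_ne h2 h3⟩ h1
        have hfr : finrank (ZMod p) V' < finrank (ZMod p) V := Submodule.finrank_lt_finrank_of_lt hlt
        have h1 := ih (finrank (ZMod p) V') (by omega) V' hV' (by omega) rfl
        have h2 := step_count C hV' hV hlt hmax (β := β)
          (fun d hd hd' => hβ d hd (by omega))
        have hsub : C.KillSet V ⊆ C.KillSet V' ∪
            {v : ι → Bool | ∃ τ : ι → ι → ZMod p, C.Eqv (ZMod p) τ ∧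
              (∀ j, (fun i => τ i j) ∈ V) ∧ (∃ j, (fun i => τ i j) ∉ V') ∧
              (fun i => ∑ j, τ i j * svr (ZMod p) v j) ∈ V'} := by
          rintro v ⟨τ, hτ, hτ0, hτV, hτv⟩
          by_cases h3 : ∀ j, (fun i => τ i j) ∈ V'
          · exact Or.inl ⟨τ, hτ, hτ0, h3, hτv⟩
          · push Not at h3
            refine Or.inr ⟨τ, hτ, hτV, h3, ?_⟩
            have h4 : (fun i => ∑ j, τ i j * svr (ZMod p) v j) = 0 := funext hτv
            rw [h4]
            exact V'.zero_mem
        have hcard := (Set.ncard_le_ncard hsub (Set.toFinite _)).trans (Set.ncard_union_le _ _)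
        have hp1 : (0 : ℝ) ≤ (p : ℝ) - 1 := by
          have : 1 ≤ p := (Fact.out : p.Prime).one_lt.le
          have : (1 : ℝ) ≤ p := by exact_mod_cast this
          linarith
        have hcard' : ((C.KillSet V).ncard : ℝ) ≤ ((C.KillSet V').ncard : ℝ) +
            (({v : ι → Bool | ∃ τ : ι → ι → ZMod p, C.Eqv (ZMod p) τ ∧
              (∀ j, (fun i => τ i j) ∈ V) ∧ (∃ j, (fun i => τ i j) ∉ V') ∧
              (fun i => ∑ j, τ i j * svr (ZMod p) v j) ∈ V'}).ncard : ℝ) := by
          exact_mod_cast hcard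
        have h3 := mul_le_mul_of_nonneg_right hcard' hp1
        rw [add_mul] at h3
        have h4 : ((finrank (ZMod p) V' : ℝ) + 1) * (2 ^ Fintype.card ι * β) ≤
            N * (2 ^ Fintype.card ι * β) := by
          apply mul_le_mul_of_nonneg_right
          · have : finrank (ZMod p) V' + 1 ≤ N := by omega
            exact_mod_cast this
          · positivity
        linarith
  exact key _ V hV hm rfl

/-- `kill_count_beta` with `β = (1 + p exp (- 2 (n / m) / p ^ 2)) ^ m`, by `sum_cos_le` with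
`k = n / d ≥ n / m` and `1 ≤ 1 + p exp …`. -/
theorem kill_count (hp2 : p ≠ 2) {m : ℕ} (hm0 : 0 < m) (V : Submodule (ZMod p) (ι → ZMod p))
    (hV : C.PInv V) (hm : finrank (ZMod p) V ≤ m) :
    ((C.KillSet V).ncard : ℝ) * ((p : ℝ) - 1)
      ≤ m * (1 + p * Real.exp (-(2 * ((Fintype.card ι : ℝ) / m) / (p : ℝ) ^ 2))) ^ m
        * 2 ^ Fintype.card ι := by
  have hp : p.Prime := Fact.out
  have hp0 : (0 : ℝ) < p := by exact_mod_cast hp.pos
  have hmR : (0 : ℝ) < m := by exact_mod_cast hm0
  set β : ℝ := (1 + p * Real.exp (-(2 * ((Fintype.card ι : ℝ) / m) / (p : ℝ) ^ 2))) ^ m with hβdef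
  have h1 := kill_count_beta C (p := p) (m := m) (β := β) (fun d hd hdm => by
    have hdR : (0 : ℝ) < d := by exact_mod_cast hd
    have hdmR : (d : ℝ) ≤ m := by exact_mod_cast hdm
    have h2 := sum_cos_le (p := p) hp2 (k := (Fintype.card ι : ℝ) / d) (by positivity)
    have h3 : (Fintype.card ι : ℝ) / m ≤ (Fintype.card ι : ℝ) / d := by
      gcongr
    have h4 : (1 : ℝ) + p * Real.exp (-(2 * ((Fintype.card ι : ℝ) / d) / (p : ℝ) ^ 2)) ≤
        1 + p * Real.exp (-(2 * ((Fintype.card ι : ℝ) / m) / (p : ℝ) ^ 2)) := by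
      gcongr
    have h5 : (1 : ℝ) ≤ 1 + p * Real.exp (-(2 * ((Fintype.card ι : ℝ) / m) / (p : ℝ) ^ 2)) := by
      have : 0 ≤ p * Real.exp (-(2 * ((Fintype.card ι : ℝ) / m) / (p : ℝ) ^ 2)) := by positivity
      linarith
    calc (∑ a : ZMod p, |Real.cos (2 * Real.pi * (a.val : ℝ) / p)| ^
          ((Fintype.card ι : ℝ) / d)) ^ d
        ≤ (1 + p * Real.exp (-(2 * ((Fintype.card ι : ℝ) / m) / (p : ℝ) ^ 2))) ^ d := by
          apply pow_le_pow_left₀
          · exact Finset.sum_nonneg fun a _ => Real.rpow_nonneg (abs_nonneg _) _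
          · exact h2.trans h4
      _ ≤ β := pow_le_pow_right₀ h5 hdm) V hV hm
  refine h1.trans ?_
  have h6 : (finrank (ZMod p) V : ℝ) ≤ m := by exact_mod_cast hm
  have h7 : 0 ≤ 2 ^ Fintype.card ι * β := by positivity
  have h8 := mul_le_mul_of_nonneg_right h6 h7
  linarith

end Pool.MP43e44c
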