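import Pool.Agent.H.MP_43e44c_ag.SB.Def

/-!
Signed permutation representations over commutative rings, equivariant matrices.
-/

set_option autoImplicit false

open Finset Module

namespace Pool.MP43e44c

/-- The vector of signs over a ring. -/
def svr (R : Type*) [CommRing R] {ι : Type*} (v : ι → Bool) : ι → R := fun i => if v i then 1 else -1

/-- The real vector of a rational vector. -/
def castR {κ : Type*} (s : κ → ℚ) : κ → ℝ := fun k => (s k : ℝ)

namespace Coc

variable {Γ ι : Type*} [Group Γ] [MulAction Γ ι] (C : Coc Γ ι)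

/-- The sign of the cocycle as an integer. -/
noncomputable def sgn (g : Γ) (i : ι) : ℤ := by
  classical
  exact if C.ε g i = 1 then 1 else -1

theorem sgn_cast (g : Γ) (i : ι) : ((C.sgn g i : ℤ) : ℝ) = C.ε g i := by
  unfold sgn
  rcases C.sq g i with h | h
  · rw [h]; simp
  · rw [h]; norm_num

theorem sgn_mul_self (g : Γ) (i : ι) : C.sgn g i * C.sgn g i = 1 := by
  unfold sgn
  split_ifs <;> norm_num

theorem sgn_mul (g h : Γ) (i : ι) : C.sgn (g * h) i = C.sgn g (h • i) * C.sgn h i := by
  have h1 := C.mul g h i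
  rw [← sgn_cast, ← sgn_cast, ← sgn_cast] at h1
  exact_mod_cast h1

theorem sgn_one (i : ι) : C.sgn 1 i = 1 := by
  have h1 := C.one i
  rw [← sgn_cast] at h1
  exact_mod_cast h1

variable (R : Type*) [CommRing R]

/-- Equivariant matrices. -/
def Eqv (τ : ι → ι → R) : Prop :=
  ∀ g i j, τ (g • i) (g • j) = (C.sgn g i : R) * (C.sgn g j : R) * τ i j

/-- The signed permutation of the coordinates. -/
noncomputable def pact (g : Γ) : (ι → R) →ₗ[R] (ι → R) where
  toFun x := fun i => (C.sgn g (g⁻¹ • i) : R) * x (g⁻¹ • i)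
  map_add' x y := by
    ext i
    simp [mul_add]
  map_smul' r x := by
    ext i
    simp only [Pi.smul_apply, smul_eq_mul, RingHom.id_apply]
    ring

theorem pact_apply (g : Γ) (x : ι → R) (i : ι) :
    C.pact R g x i = (C.sgn g (g⁻¹ • i) : R) * x (g⁻¹ • i) := rfl

theorem pact_apply_smul (g : Γ) (x : ι → R) (i : ι) :
    C.pact R g x (g • i) = (C.sgn g i : R) * x i := by
  rw [pact_apply, inv_smul_smul]

theorem pact_one (x : ι → R) : C.pact R 1 x = x := by
  ext i
  rw [pact_apply, inv_one, one_smul, C.sgn_one, Int.cast_one, one_mul]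

theorem pact_mul (g h : Γ) (x : ι → R) : C.pact R (g * h) x = C.pact R g (C.pact R h x) := by
  ext i
  rw [pact_apply, pact_apply, pact_apply, C.sgn_mul, mul_inv_rev, mul_smul, smul_inv_smul,
    Int.cast_mul, mul_assoc]

variable {R}

/-- Invariant subspaces. -/
def PInv (V : Submodule R (ι → R)) : Prop := ∀ g : Γ, ∀ x ∈ V, C.pact R g x ∈ V

variable [Fintype ι]

/-- The sign vectors killed by a nonzero equivariant map to a subspace. -/
def KillSet (V : Submodule R (ι → R)) : Set (ι → Bool) :=
  {v | ∃ τ : ι → ι → R, C.Eqv R τ ∧ τ ≠ 0 ∧ (∀ j, (fun i => τ i j) ∈ V) ∧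
    ∀ i, ∑ j, τ i j * svr R v j = 0}

end Coc

end Pool.MP43e44c
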