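import Pool.Agent.H.MP_43e44c_ag.MQ.Large

/-!
The dichotomy: a small rational invariant subspace, and minimal subspaces of small multiplicity.
-/

set_option autoImplicit false

open Finset Module

namespace Pool.MP43e44c

section Dich

variable {ι : Type*} [Fintype ι]

/-- The standard form on `ℚ ^ ι`. -/
private noncomputable def dich_form (ι : Type*) [Fintype ι] : LinearMap.BilinForm ℚ (ι → ℚ) :=
  LinearMap.mk₂ ℚ (fun x y => ∑ i, x i * y i)
    (fun x x' y => by simp only [Pi.add_apply, add_mul, sum_add_distrib])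
    (fun r x y => by simp only [Pi.smul_apply, smul_eq_mul, mul_assoc, ← mul_sum])
    (fun x y y' => by simp only [Pi.add_apply, mul_add, sum_add_distrib])
    (fun r x y => by
      simp only [Pi.smul_apply, smul_eq_mul, mul_sum]
      exact sum_congr rfl fun i _ => by ring)

private theorem dich_form_apply (x y : ι → ℚ) : dich_form ι x y = ∑ i, x i * y i := rfl

private theorem dich_zero {x : ι → ℚ} (h : ∑ i, x i * x i = 0) : x = 0 := by
  funext i
  have h1 := (sum_eq_zero_iff_of_nonneg (fun i _ => mul_self_nonneg (x i))).1 h i (mem_univ i)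
  exact mul_self_eq_zero.1 h1

/-- Orthogonal decomposition. -/
private theorem dich_decomp (W : Submodule ℚ (ι → ℚ)) (x : ι → ℚ) :
    ∃ w ∈ W, ∀ u ∈ W, ∑ i, (x - w) i * u i = 0 := by
  have hrefl : (dich_form ι).IsRefl := by
    intro x y h
    rw [dich_form_apply] at h ⊢
    rw [← h]
    exact sum_congr rfl fun i _ => mul_comm _ _
  have hc : IsCompl W ((dich_form ι).orthogonal W) := by
    rw [LinearMap.BilinForm.isCompl_orthogonal_iff_disjoint hrefl, Submodule.disjoint_def]
    intro y hy hy2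
    exact dich_zero (hy2 y hy)
  have hx : x ∈ W ⊔ (dich_form ι).orthogonal W := by
    rw [hc.sup_eq_top]
    trivial
  obtain ⟨w, hw, z, hz, rfl⟩ := Submodule.mem_sup.1 hx
  refine ⟨w, hw, fun u hu => ?_⟩
  have h1 := hz u hu
  rw [add_sub_cancel_left]
  change ∑ i, u i * z i = 0 at h1
  rw [← h1]
  exact sum_congr rfl fun i _ => mul_comm _ _

end Dich

variable {Γ ι : Type*} [Group Γ] [Fintype Γ] [MulAction Γ ι] [Fintype ι] (C : Coc Γ ι)

omit [Fintype Γ] in
private theorem dich_mono {W W' : Submodule ℚ (ι → ℚ)} (h : W ≤ W') :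
    hmat C ℚ W ≤ hmat C ℚ W' := by
  rintro τ ⟨h1, h2⟩
  exact ⟨h1, fun x hx i => h2 x (fun w hw => hx w (h hw)) i⟩

omit [Fintype Γ] in
private theorem dich_disj {B V : Submodule ℚ (ι → ℚ)}
    (h : ∀ b ∈ B, ∀ w ∈ V, ∑ i, b i * w i = 0) : hmat C ℚ B ⊓ hmat C ℚ V = ⊥ := by
  classical
  rw [eq_bot_iff]
  rintro τ ⟨⟨_, hB⟩, ⟨_, hV⟩⟩
  rw [Submodule.mem_bot]
  have key : ∀ (x : ι → ℚ) (i : ι), ∑ j, τ i j * x j = 0 := by
    intro x i
    obtain ⟨b, hb, hxb⟩ := dich_decomp B x
    have e1 := hB (x - b) hxb i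
    have e2 := hV b (h b hb) i
    have e3 : ∑ j, τ i j * x j = ∑ j, τ i j * (x - b) j + ∑ j, τ i j * b j := by
      rw [← sum_add_distrib]
      refine sum_congr rfl fun j _ => ?_
      rw [Pi.sub_apply]
      ring
    rw [e3, e1, e2, add_zero]
  funext i j
  have h1 := key (Pi.single j 1) i
  simpa [Pi.single_apply] using h1

/-- The space of the rational vectors all of whose translates are orthogonal to `v`. -/
private noncomputable def dich_B (v : ι → Bool) : Submodule ℚ (ι → ℚ) where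
  carrier := {x | ∀ g : Γ, ∑ i, C.pact ℚ g x i * svr ℚ v i = 0}
  zero_mem' := by
    intro g
    rw [map_zero]
    simp
  add_mem' := by
    intro x y hx hy g
    rw [map_add]
    simp only [Pi.add_apply, add_mul, sum_add_distrib]
    rw [hx g, hy g, add_zero]
  smul_mem' := by
    intro r x hx g
    rw [map_smul]
    simp only [Pi.smul_apply, smul_eq_mul, mul_assoc, ← mul_sum]
    rw [hx g, mul_zero]

omit [Fintype Γ] in
private theorem dich_B_inv (v : ι → Bool) : C.PInv (dich_B C v) := by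
  intro g x hx h
  rw [← C.pact_mul]
  exact hx (h * g)

omit [Fintype Γ] in
private theorem dich_B_ne (v : ι → Bool) {U : Submodule ℝ (EuclideanSpace ℝ ι)} (hU : C.Inv U)
    (hU0 : U ≠ ⊥) (hv : SOrth v U) : dich_B C v ≠ ⊥ := by
  obtain ⟨u, hu, hu0⟩ := (Submodule.ne_bot_iff U).1 hU0
  obtain ⟨i, hi⟩ : ∃ i, u i ≠ 0 := by
    by_contra hcon
    push Not at hcon
    exact hu0 (by ext i; exact hcon i)
  obtain ⟨l, hl⟩ := exists_functional hi
  rw [Submodule.ne_bot_iff]
  refine ⟨fun i => l (u i), ?_, fun h => hl (congrFun h i)⟩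
  intro g
  have h1 := hv (C.act g u) (hU g u hu)
  rw [PiLp.inner_apply] at h1
  have h2 : ∀ i, C.pact ℚ g (fun i => l (u i)) i * svr ℚ v i
      = l (inner ℝ (sv v i) (C.act g u i)) := by
    intro i
    have e1 : (inner ℝ (sv v i) (C.act g u i) : ℝ) = C.act g u i * sv v i := by
      simp [RCLike.inner_apply]
    rw [e1, C.pact_apply, C.act_apply, ← C.sgn_cast]
    have e2 : sv v i = ((if v i then (1 : ℤ) else -1 : ℤ) : ℝ) := by
      unfold sv
      by_cases h : v i <;> simp [h]
    have e3 : svr ℚ v i = ((if v i then (1 : ℤ) else -1 : ℤ) : ℚ) := by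
      unfold svr
      by_cases h : v i <;> simp [h]
    rw [e2, e3]
    generalize (if v i then (1 : ℤ) else -1 : ℤ) = s
    generalize C.sgn g (g⁻¹ • i) = t
    have e4 : (t : ℝ) * u (g⁻¹ • i) * (s : ℝ) = (t * s : ℤ) • u (g⁻¹ • i) := by
      rw [zsmul_eq_mul]
      push_cast
      ring
    rw [e4, map_zsmul, zsmul_eq_mul]
    push_cast
    ring
  rw [sum_congr rfl fun i _ => h2 i, ← map_sum, h1, map_zero]

private theorem dich_orth (v : ι → Bool) {V : Submodule ℚ (ι → ℚ)} (hV : C.PInv V)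
    (hv : v ∉ C.KillSet V) {b w : ι → ℚ} (hb : b ∈ dich_B C v) (hw : w ∈ V) :
    ∑ i, b i * w i = 0 := by
  by_contra hne
  apply hv
  refine ⟨fun i j => ∑ g : Γ, C.pact ℚ g w i * C.pact ℚ g b j, ?_, ?_, ?_, ?_⟩
  · intro h i j
    rw [mul_sum]
    refine (Equiv.sum_comp (Equiv.mulLeft h)
      (fun g => C.pact ℚ g w (h • i) * C.pact ℚ g b (h • j))).symm.trans ?_
    refine sum_congr rfl fun g _ => ?_
    rw [Equiv.coe_mulLeft, C.pact_mul, C.pact_mul, C.pact_apply_smul, C.pact_apply_smul]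
    ring
  · intro h0
    have h1 : ∑ i, ∑ g : Γ, C.pact ℚ g w i * C.pact ℚ g b i = 0 := by
      refine sum_eq_zero fun i _ => ?_
      exact congrFun (congrFun h0 i) i
    rw [sum_comm] at h1
    have h2 : ∀ g : Γ, ∑ i, C.pact ℚ g w i * C.pact ℚ g b i = ∑ i, b i * w i := by
      intro g
      rw [← Equiv.sum_comp (MulAction.toPerm g)]
      refine sum_congr rfl fun i _ => ?_
      rw [MulAction.toPerm_apply, C.pact_apply_smul, C.pact_apply_smul]
      have h3 : ((C.sgn g i : ℤ) : ℚ) * ((C.sgn g i : ℤ) : ℚ) = 1 := by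
        rw [← Int.cast_mul, C.sgn_mul_self, Int.cast_one]
      linear_combination (w i * b i) * h3
    rw [sum_congr rfl fun g _ => h2 g, sum_const, card_univ, nsmul_eq_mul] at h1
    rcases mul_eq_zero.1 h1 with h3 | h3
    · exact Fintype.card_ne_zero (Nat.cast_eq_zero.1 h3)
    · exact hne h3
  · intro j
    have h1 : (fun i => ∑ g : Γ, C.pact ℚ g w i * C.pact ℚ g b j)
        = ∑ g : Γ, C.pact ℚ g b j • C.pact ℚ g w := by
      funext i
      rw [Finset.sum_apply]
      refine sum_congr rfl fun g _ => ?_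
      rw [Pi.smul_apply, smul_eq_mul, mul_comm]
    rw [h1]
    exact V.sum_mem fun g _ => V.smul_mem _ (hV g w hw)
  · intro i
    simp only [sum_mul]
    rw [sum_comm]
    refine sum_eq_zero fun g _ => ?_
    have h1 := hb g
    simp only [mul_assoc]
    rw [← mul_sum, h1, mul_zero]

omit [Fintype Γ] in
private theorem dich_rspan (v : ι → Bool) : SOrth v (rspan (dich_B C v)) := by
  intro x hx
  unfold rspan at hx
  induction hx using Submodule.span_induction with
  | mem x hx =>
    obtain ⟨s, hs, rfl⟩ := hx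
    have h1 := hs 1
    simp only [C.pact_one] at h1
    rw [PiLp.inner_apply]
    have h2 : ∀ i, (inner ℝ (sv v i) ((WithLp.toLp 2 (castR s) : EuclideanSpace ℝ ι) i) : ℝ)
        = ((s i * svr ℚ v i : ℚ) : ℝ) := by
      intro i
      unfold sv svr castR
      by_cases h : v i <;> simp [h]
    rw [sum_congr rfl fun i _ => h2 i, ← Rat.cast_sum, h1, Rat.cast_zero]
  | zero => exact inner_zero_right _
  | add x z _ _ hx hz => rw [inner_add_right, hx, hz, add_zero]
  | smul r x _ hx => rw [inner_smul_right, hx, mul_zero]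

/-- Let `𝓕` be the set of the invariant rational subspaces `W` with
`finrank W ≤ 2 finrank (hmat ℚ W)` (it contains `⊥`), and `V` an element of `𝓕` of maximal
dimension.  Then `finrank V ≤ 2 finrank (hmat ℚ V) ≤ 2 finrank (hmat ℚ ⊤)` (`hmat ℚ V ≤ hmat ℚ ⊤`:
a vector orthogonal to everything is `0`).  Let `v` be orthogonal to a real invariant subspace
`U₀ ≠ ⊥`, and let `B` be the space of the rational `x` with `∑ i, x i * (g · v) i = 0` for all
`g`.  `B ≠ ⊥` since for `u ∈ U₀`, `u ≠ 0` and a `ℚ`-linear `l` (`exists_functional`) the vector `l ∘ u`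
is a nonzero element of `B`.  `B` is invariant.  Assume `v ∉ KillSet V`.  Then `B` is orthogonal to `V`:
otherwise the matrix `τ = π_V π_B` (orthogonal projections in `ℚ ^ ι`, which commute with
the group) is nonzero, equivariant, with columns in `V`, and kills `v` (as `π_B v = 0`).
(Orthogonal projections over `ℚ`: the form `∑ x_i y_i` is positive definite on every subspace,
so `W` and its orthogonal complement are complementary; one may also use the equivariant projection
differently.)  So `B ⊓ V = ⊥`, and `finrank (B ⊔ V) = finrank B + finrank V > finrank V`, so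
`B ⊔ V` is not in `𝓕`: `finrank B + finrank V > 2 finrank (hmat ℚ (B ⊔ V))
≥ 2 finrank (hmat ℚ B) + 2 finrank (hmat ℚ V) ≥ 2 finrank (hmat ℚ B) + finrank V`
(`hmat B` and `hmat V` are contained in `hmat (B ⊔ V)` and meet in `0`, since a matrix
in both vanishes on `B^⊥ + V^⊥ = ⊤`).  Hence `2 finrank (hmat ℚ B) < finrank B`, and by
`finrank_le_of_large` there is a minimal `U ≤ rspan B` with `2 finrank (Hom U) ≤ finrank U`.
`v` is orthogonal to `rspan B` (take `g = 1`). -/
theorem dichotomy : ∃ V : Submodule ℚ (ι → ℚ), C.PInv V ∧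
    finrank ℚ V ≤ 2 * finrank ℚ (hmat C ℚ (⊤ : Submodule ℚ (ι → ℚ))) ∧
    ∀ v : ι → Bool, (∃ U : Submodule ℝ (EuclideanSpace ℝ ι), C.Inv U ∧ U ≠ ⊥ ∧ SOrth v U) →
      v ∈ C.KillSet V ∨ ∃ U : Submodule ℝ (EuclideanSpace ℝ ι), C.Mnl U ∧
        2 * finrank ℝ (C.Hom U) ≤ finrank ℝ U ∧ SOrth v U := by
  let F : Set ℕ := {n | ∃ V : Submodule ℚ (ι → ℚ), C.PInv V ∧
    finrank ℚ V ≤ 2 * finrank ℚ (hmat C ℚ V) ∧ finrank ℚ V = n}
  have hF : F.Nonempty := by
    refine ⟨0, ⊥, ?_, ?_, ?_⟩
    · intro g x hx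
      rw [Submodule.mem_bot] at hx ⊢
      rw [hx, map_zero]
    · rw [finrank_bot]
      exact Nat.zero_le _
    · exact finrank_bot ℚ _
  have hbd : BddAbove F := by
    refine ⟨finrank ℚ (ι → ℚ), ?_⟩
    rintro n ⟨V, _, _, rfl⟩
    exact Submodule.finrank_le V
  obtain ⟨V, hV1, hV2, hV3⟩ := Nat.sSup_mem hF hbd
  have hmax : ∀ W : Submodule ℚ (ι → ℚ), C.PInv W → finrank ℚ W ≤ 2 * finrank ℚ (hmat C ℚ W) →
      finrank ℚ W ≤ finrank ℚ V := by
    intro W h1 h2
    rw [hV3]
    exact le_csSup hbd ⟨W, h1, h2, rfl⟩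
  refine ⟨V, hV1, ?_, ?_⟩
  · refine hV2.trans (Nat.mul_le_mul_left 2 ?_)
    exact Submodule.finrank_mono (dich_mono C le_top)
  · rintro v ⟨U₀, hU, hU0, hv⟩
    by_contra hcon
    push Not at hcon
    obtain ⟨hk, hcon⟩ := hcon
    set B := dich_B C v with hBdef
    have hBne : B ≠ ⊥ := dich_B_ne C v hU hU0 hv
    have hBinv : C.PInv B := dich_B_inv C v
    have horth : ∀ b ∈ B, ∀ w ∈ V, ∑ i, b i * w i = 0 :=
      fun b hb w hw => dich_orth C v hV1 hk hb hw
    have hinf : B ⊓ V = ⊥ := by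
      rw [eq_bot_iff]
      rintro x ⟨h1, h2⟩
      rw [Submodule.mem_bot]
      exact dich_zero (horth x h1 x h2)
    have hdim : finrank ℚ ↥(B ⊔ V) = finrank ℚ B + finrank ℚ V := by
      have h := Submodule.finrank_sup_add_finrank_inf_eq B V
      rw [hinf, finrank_bot, add_zero] at h
      exact h
    have hBpos : 0 < finrank ℚ B := by
      rw [Nat.pos_iff_ne_zero]
      intro h
      exact hBne (Submodule.finrank_eq_zero.1 h)
    have hsupinv : C.PInv (B ⊔ V) := by
      intro g x hx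
      obtain ⟨b, hb, w, hw, rfl⟩ := Submodule.mem_sup.1 hx
      rw [map_add]
      exact Submodule.add_mem_sup (hBinv g b hb) (hV1 g w hw)
    have hh : finrank ℚ (hmat C ℚ B) + finrank ℚ (hmat C ℚ V)
        ≤ finrank ℚ (hmat C ℚ (B ⊔ V)) := by
      have h := Submodule.finrank_sup_add_finrank_inf_eq (hmat C ℚ B) (hmat C ℚ V)
      rw [dich_disj C horth, finrank_bot, add_zero] at h
      rw [← h]
      exact Submodule.finrank_mono (sup_le (dich_mono C le_sup_left) (dich_mono C le_sup_right))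
    have hlarge : finrank ℚ B ≤ 2 * finrank ℚ (hmat C ℚ B) := by
      apply finrank_le_of_large C B hBinv
      intro U hUle hUm
      by_contra hcc
      push Not at hcc
      exact hcon U hUm hcc (fun x hx => dich_rspan C v x (hUle hx))
    have h5 := hmax (B ⊔ V) hsupinv (by omega)
    omega

end Pool.MP43e44c
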