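import Pool.Agent.H.MP_43e44c_ag.MQ.HDef
import Pool.Agent.H.MP_43e44c_ag.SB.Rep

/-!
The dimension of the commutant is at most the number of orbits on pairs.
-/

set_option autoImplicit false

open Finset Module

namespace Pool.MP43e44c

variable {Γ ι : Type*} [Group Γ] [Finite Γ] [MulAction Γ ι] [Fintype ι] (C : Coc Γ ι)

omit [Finite Γ] in
/-- An equivariant matrix is determined by its entries at representatives of the orbits of
`Γ` on `ι × ι`. -/
theorem finrank_hmat_le (K : Type*) [Field K] :
    finrank K (hmat C K (⊤ : Submodule K (ι → K)))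
      ≤ Nat.card (MulAction.orbitRel.Quotient Γ (ι × ι)) := by
  classical
  let Q := MulAction.orbitRel.Quotient Γ (ι × ι)
  have : Finite Q := Quotient.finite _
  let fQ : Fintype Q := Fintype.ofFinite Q
  let L : hmat C K (⊤ : Submodule K (ι → K)) →ₗ[K] (Q → K) :=
    { toFun := fun τ q => (τ : ι → ι → K) (Quotient.out q).1 (Quotient.out q).2
      map_add' := fun a b => by ext q; simp
      map_smul' := fun r a => by ext q; simp }
  have hL : Function.Injective L := by
    rw [← LinearMap.ker_eq_bot, LinearMap.ker_eq_bot']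
    intro τ hτ
    apply Subtype.ext
    funext i j
    obtain ⟨⟨g, hg⟩⟩ : Nonempty {g : Γ // g • (Quotient.out (Quotient.mk
        (MulAction.orbitRel Γ (ι × ι)) (i, j)) : ι × ι) = (i, j)} := by
      have h1 : (MulAction.orbitRel Γ (ι × ι)) (i, j) (Quotient.out (Quotient.mk
        (MulAction.orbitRel Γ (ι × ι)) (i, j))) :=
        (MulAction.orbitRel Γ (ι × ι)).symm
          (Quotient.mk_out (s := MulAction.orbitRel Γ (ι × ι)) (i, j))
      obtain ⟨g, hg⟩ := h1
      exact ⟨⟨g, hg⟩⟩
    have h2 : (τ : ι → ι → K) (Quotient.out (Quotient.mk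
        (MulAction.orbitRel Γ (ι × ι)) (i, j))).1 (Quotient.out (Quotient.mk
        (MulAction.orbitRel Γ (ι × ι)) (i, j))).2 = 0 := congrFun hτ _
    have h3 := τ.2.1 g (Quotient.out (Quotient.mk
        (MulAction.orbitRel Γ (ι × ι)) (i, j))).1 (Quotient.out (Quotient.mk
        (MulAction.orbitRel Γ (ι × ι)) (i, j))).2
    rw [h2, mul_zero] at h3
    have h4 := congrArg Prod.fst hg
    have h5 := congrArg Prod.snd hg
    rw [Prod.smul_fst] at h4
    rw [Prod.smul_snd] at h5
    rw [h4, h5] at h3
    exact h3
  have h1 := LinearMap.finrank_le_finrank_of_injective hL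
  rwa [Module.finrank_fintype_fun_eq_card, ← Nat.card_eq_fintype_card] at h1

/-- The number of orthogonal nonzero invariant subspaces is at most the number of orbits. -/
theorem card_reps_le (R : Finset (Submodule ℝ (EuclideanSpace ℝ ι))) (hR : ∀ U ∈ R, C.Mnl U)
    (hR2 : ∀ U ∈ R, ∀ W ∈ R, U ≠ W → U ⟂ W) :
    R.card ≤ Nat.card (MulAction.orbitRel.Quotient Γ (ι × ι)) := by
  classical
  refine le_trans ?_ (finrank_hmat_le C ℝ)
  let mat : Submodule ℝ (EuclideanSpace ℝ ι) → (ι → ι → ℝ) := fun U i j =>
    U.starProjection (EuclideanSpace.single j (1 : ℝ)) i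
  have hmt : ∀ U ∈ R, mat U ∈ hmat C ℝ (⊤ : Submodule ℝ (ι → ℝ)) := by
    intro U hU
    refine ⟨fun g i j => ?_, fun x hx i => ?_⟩
    · have h1 := C.starProjection_act (hR U hU).1 g (EuclideanSpace.single j (1 : ℝ))
      rw [C.act_single, mul_one] at h1
      have h2 : EuclideanSpace.single (g • j) (C.ε g j)
          = C.ε g j • EuclideanSpace.single (g • j) (1 : ℝ) := by
        ext k
        simp
      rw [h2, map_smul] at h1
      have h3 := congrFun (congrArg WithLp.ofLp h1) (g • i)
      have h4 : C.ε g j * mat U (g • i) (g • j) = C.ε g i * mat U i j := by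
        have h5 := C.act_apply_smul g (U.starProjection (EuclideanSpace.single j (1 : ℝ))) i
        rw [← h3.trans rfl] at h5
        exact h5
      rw [C.sgn_cast, C.sgn_cast]
      calc mat U (g • i) (g • j) = (C.ε g j * C.ε g j) * mat U (g • i) (g • j) := by
            rw [C.mul_self, one_mul]
        _ = C.ε g j * (C.ε g j * mat U (g • i) (g • j)) := by ring
        _ = _ := by rw [h4]; ring
    · have h1 : x = 0 := by
        funext k
        have h2 := hx (Pi.single k 1) trivial
        simpa [Pi.single_apply] using h2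
      simp [h1]
  let m : R → hmat C ℝ (⊤ : Submodule ℝ (ι → ℝ)) := fun U => ⟨mat U, hmt U U.2⟩
  have hind : LinearIndependent ℝ m := by
    rw [Fintype.linearIndependent_iff]
    intro c hc W
    -- apply to a nonzero vector of W
    obtain ⟨w, hw, hw0⟩ := (Submodule.ne_bot_iff _).1 (hR W W.2).2.1
    have h1 : ∀ x : EuclideanSpace ℝ ι, ∑ U : R, c U • (U : Submodule ℝ (EuclideanSpace ℝ ι)).starProjection x = 0 := by
      intro x
      have h2 : x = ∑ j, x j • EuclideanSpace.single j (1 : ℝ) := by
        ext k
        simp [Pi.single_apply]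
      have h3 : ∀ j : ι, ∑ U : R, c U • (U : Submodule ℝ (EuclideanSpace ℝ ι)).starProjection
          (EuclideanSpace.single j (1 : ℝ)) = 0 := by
        intro j
        ext i
        have h4 := congrFun (congrFun (congrArg Subtype.val hc) i) j
        simp only [Submodule.coe_sum, Submodule.coe_smul, Finset.sum_apply, Pi.smul_apply,
          smul_eq_mul, ZeroMemClass.coe_zero, Pi.zero_apply, m, mat] at h4
        simpa using h4
      rw [h2]
      simp only [map_sum, map_smul, Finset.smul_sum]
      rw [Finset.sum_comm]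
      refine Finset.sum_eq_zero fun j _ => ?_
      have h5 := congrArg (fun y => x j • y) (h3 j)
      simp only [smul_zero, Finset.smul_sum] at h5
      rw [← h5]
      exact Finset.sum_congr rfl fun U _ => smul_comm _ _ _
    have h2 := h1 w
    rw [Finset.sum_eq_single W] at h2
    · rw [Submodule.starProjection_eq_self_iff.2 hw] at h2
      exact (smul_eq_zero.1 h2).resolve_right hw0
    · intro U _ hUW
      have h3 : (U : Submodule ℝ (EuclideanSpace ℝ ι)) ⟂ W :=
        hR2 U U.2 W W.2 fun h => hUW (Subtype.ext h)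
      rw [(Submodule.starProjection_apply_eq_zero_iff _).2 (h3.symm.le hw), smul_zero]
    · intro h
      exact absurd (mem_univ _) h
  have h1 := hind.fintype_card_le_finrank
  rwa [Fintype.card_coe] at h1

end Pool.MP43e44c
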