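import Pool.Agent.H.MP_43e44c_ag.MQ.Red2
import Pool.Agent.H.MP_43e44c_ag.MQ.Dich
import Pool.Agent.H.MP_43e44c_ag.MQ.Orb
import Pool.Agent.H.MP_43e44c_ag.PS.Half

/-!
The number of sign vectors orthogonal to an invariant subspace, in terms of the number of orbits on
pairs.
-/

set_option autoImplicit false

open Finset Module

namespace Pool.MP43e44c

set_option backward.isDefEq.respectTransparency false in
/-- Intertwining operators from a minimal subspace of multiplicity one. -/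
theorem few_line {Γ ι : Type*} [Group Γ] [MulAction Γ ι] [Fintype ι] (C : Coc Γ ι)
    {W : Submodule ℝ (EuclideanSpace ℝ ι)} (hW : C.Mnl W) (h : finrank ℝ (C.Hom W) = 1)
    {S : W →L[ℝ] EuclideanSpace ℝ ι} (hS : S ∈ C.Hom W) :
    ∃ c : ℝ, ∀ x : W, S x = c • (x : EuclideanSpace ℝ ι) := by
  have hne : (⟨W.subtypeL, C.subtypeL_mem_hom W⟩ : C.Hom W) ≠ 0 := fun h =>
    Coc.subtypeL_ne_zero hW.2.1 (congrArg Subtype.val h)
  obtain ⟨c, hc⟩ := (finrank_eq_one_iff_of_nonzero' (K := ℝ) (V := C.Hom W) _ hne).1 h ⟨S, hS⟩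
  refine ⟨c, fun x => ?_⟩
  have h5 : c • W.subtypeL = S := congrArg Subtype.val hc
  rw [← h5]
  rfl

theorem few_core.{u, v} : ∃ C : ℝ, 0 < C ∧ ∀ (Γ : Type u) (ι : Type v) [Group Γ] [Fintype Γ]
    [MulAction Γ ι] [Fintype ι] [DecidableEq ι] [MulAction.IsPretransitive Γ ι] (C₀ : Coc Γ ι)
    (r : ℕ), Nat.card (MulAction.orbitRel.Quotient Γ (ι × ι)) ≤ r → 1 ≤ r →
      2 ≤ Fintype.card ι →
    ({v : ι → Bool | ∃ U : Submodule ℝ (EuclideanSpace ℝ ι),
        C₀.Inv U ∧ U ≠ ⊥ ∧ SOrth v U}.ncard : ℝ)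
      ≤ C * ((r : ℝ) * Real.sqrt r *
        Real.sqrt (Real.log (Fintype.card ι) / Fintype.card ι)) * 2 ^ Fintype.card ι := by
  classical
  obtain ⟨C, hC, hhalf⟩ := half_le.{u, v}
  refine ⟨6 * C₃ + 3 * C, by have := C₃_pos; positivity, ?_⟩
  intro Γ ι _ _ _ _ _ _ C₀ r hr hr1 hn
  obtain ⟨V, hV, hVr, hdich⟩ := dichotomy C₀
  have hVr' : finrank ℚ V ≤ 2 * r :=
    hVr.trans (Nat.mul_le_mul_left 2 ((finrank_hmat_le C₀ ℚ).trans hr))
  obtain ⟨R, hR1, hR2, hR3, -⟩ := C₀.exists_reps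
  have hRr : R.card ≤ r := (card_reps_le C₀ R hR1 hR2).trans hr
  set n := Fintype.card ι with hndef
  set L : ℝ := Real.sqrt (Real.log n / n) with hL
  have hL0 : 0 ≤ L := Real.sqrt_nonneg _
  have hr1R : (1 : ℝ) ≤ r := by exact_mod_cast hr1
  have hsr : 1 ≤ Real.sqrt r := Real.one_le_sqrt.2 hr1R
  have hrs : (1 : ℝ) ≤ (r : ℝ) * Real.sqrt r := by nlinarith
  -- the first set
  have h1 := kill_count_rat C₀ hn V hV (m := 2 * r) (by omega) hVr'
  rw [← hndef, ← hL] at h1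
  have h1' : ((C₀.KillSet V).ncard : ℝ) ≤ 6 * C₃ * ((r : ℝ) * Real.sqrt r * L) * 2 ^ n := by
    refine h1.trans ?_
    have h2 : Real.sqrt ((2 * r : ℕ) : ℝ) ≤ 3 * Real.sqrt r := by
      have h3 : Real.sqrt 9 = 3 := by
        rw [show (9 : ℝ) = 3 ^ 2 by norm_num]
        exact Real.sqrt_sq (by norm_num)
      rw [← h3, ← Real.sqrt_mul (by norm_num)]
      apply Real.sqrt_le_sqrt
      push_cast
      linarith
    have hC₃ := C₃_pos
    have h4 : ((2 * r : ℕ) : ℝ) * Real.sqrt ((2 * r : ℕ) : ℝ) * L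
        ≤ (2 * r) * (3 * Real.sqrt r) * L := by
      push_cast at h2 ⊢
      gcongr
    calc C₃ * (((2 * r : ℕ) : ℝ) * Real.sqrt ((2 * r : ℕ) : ℝ) * L) * 2 ^ n
        ≤ C₃ * ((2 * r) * (3 * Real.sqrt r) * L) * 2 ^ n := by gcongr
      _ = _ := by ring
  -- the second set
  let R₂ := R.filter fun U : Submodule ℝ (EuclideanSpace ℝ ι) => finrank ℝ U = 2
  have hR₂card : R₂.card ≤ r := (card_filter_le _ _).trans hRr
  have h2 := hhalf Γ ι C₀ R₂ (fun U hU => ⟨(hR1 U (mem_filter.1 hU).1).1, (mem_filter.1 hU).2⟩)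
    (by
      intro W hW hW2 hWh v hv
      obtain ⟨U, hU, T, hT, hT0, hTr⟩ := hR3 W hW
      have hm := hR1 U hU
      obtain ⟨S, hS, hS0, hSr⟩ := C₀.hom_symm hW.1 hm ⟨T, hT, hT0, hTr⟩
      obtain ⟨c, hSc⟩ := few_line C₀ hW hWh hS
      have hUW : U ≤ W := by
        rw [← hSr]
        rintro _ ⟨x, rfl⟩
        show S x ∈ W
        rw [hSc]
        exact W.smul_mem c x.2
      have hUW' : U = W := hW.2.2 U hUW hm.1 hm.2.1
      subst hUW'
      exact ⟨U, mem_filter.2 ⟨hU, hW2⟩, hv⟩) hn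
  rw [← hndef, ← hL] at h2
  have hnR : (2 : ℝ) ≤ n := by exact_mod_cast hn
  have hn0 : (0 : ℝ) < n := by linarith
  have hbound : (R₂.card : ℝ) / n ≤ 2 * ((r : ℝ) * Real.sqrt r * L) := by
    have hlog : 1 / 4 ≤ Real.log n := by
      have h5 : Real.log 2 ≤ Real.log n := Real.log_le_log (by norm_num) hnR
      have h6 := Real.log_two_gt_d9
      linarith
    have hL1 : 1 / n ≤ 2 * L := by
      have h5 : (1 / (n : ℝ)) ^ 2 ≤ 4 * (Real.log n / n) := by
        rw [div_pow, one_pow, ← mul_div_assoc, div_le_div_iff₀ (by positivity) hn0]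
        nlinarith
      have h6 := Real.sqrt_le_sqrt h5
      rw [Real.sqrt_sq (by positivity), Real.sqrt_mul (by norm_num),
        show (4 : ℝ) = 2 ^ 2 by norm_num, Real.sqrt_sq (by norm_num)] at h6
      exact h6
    have h7 : (R₂.card : ℝ) ≤ r := by exact_mod_cast hR₂card
    calc (R₂.card : ℝ) / n = R₂.card * (1 / n) := by ring
      _ ≤ r * (2 * L) := by gcongr
      _ ≤ (r * Real.sqrt r) * (2 * L) := by
          apply mul_le_mul_of_nonneg_right _ (by positivity)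
          nlinarith
      _ = _ := by ring
  have hunion : {v : ι → Bool | ∃ U : Submodule ℝ (EuclideanSpace ℝ ι),
      C₀.Inv U ∧ U ≠ ⊥ ∧ SOrth v U} ⊆ C₀.KillSet V ∪
        ((univ.filter fun v : ι → Bool => ∃ W, C₀.Mnl W ∧
          2 * finrank ℝ (C₀.Hom W) ≤ finrank ℝ W ∧ SOrth v W : Finset (ι → Bool)) :
          Set (ι → Bool)) := by
    intro v hv
    rcases hdich v hv with h | h
    · exact Or.inl h
    · exact Or.inr (mem_coe.2 (mem_filter.2 ⟨mem_univ _, h⟩))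
  have h3 := (Set.ncard_le_ncard hunion (Set.toFinite _)).trans (Set.ncard_union_le _ _)
  rw [Set.ncard_coe_finset] at h3
  have h4 : L ≤ (r : ℝ) * Real.sqrt r * L := by nlinarith
  calc ({v : ι → Bool | ∃ U : Submodule ℝ (EuclideanSpace ℝ ι),
        C₀.Inv U ∧ U ≠ ⊥ ∧ SOrth v U}.ncard : ℝ)
      ≤ ((C₀.KillSet V).ncard : ℝ) + ((univ.filter fun v : ι → Bool => ∃ W, C₀.Mnl W ∧
          2 * finrank ℝ (C₀.Hom W) ≤ finrank ℝ W ∧ SOrth v W : Finset (ι → Bool)).card : ℝ) := by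
        exact_mod_cast h3
    _ ≤ 6 * C₃ * ((r : ℝ) * Real.sqrt r * L) * 2 ^ n + C * (L + R₂.card / n) * 2 ^ n :=
        add_le_add h1' h2
    _ ≤ 6 * C₃ * ((r : ℝ) * Real.sqrt r * L) * 2 ^ n + C * ((r : ℝ) * Real.sqrt r * L +
        2 * ((r : ℝ) * Real.sqrt r * L)) * 2 ^ n := by gcongr
    _ = _ := by ring

end Pool.MP43e44c
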