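import Pool.Agent.H.MP_43e44c_ag.MQ.Def
import Pool.Agent.H.MP_43e44c_ag.SB.Uni

/-!
Equivariant matrices supported on a subspace; the real span of a rational subspace.
-/

set_option autoImplicit false

open Finset Module

namespace Pool.MP43e44c

variable {Γ ι : Type*} [Group Γ] [Fintype Γ] [MulAction Γ ι] [Fintype ι] (C : Coc Γ ι)

/-- The equivariant matrices vanishing on the orthogonal complement of `W` (these correspond to the
equivariant maps from `W`). -/
def hmat (K : Type*) [Field K] (W : Submodule K (ι → K)) : Submodule K (ι → ι → K) where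
  carrier := {τ | C.Eqv K τ ∧ ∀ x : ι → K, (∀ w ∈ W, ∑ i, x i * w i = 0) →
    ∀ i, ∑ j, τ i j * x j = 0}
  zero_mem' := by
    refine ⟨fun g i j => by simp, fun x _ i => by simp⟩
  add_mem' := by
    rintro a b ⟨ha, ha'⟩ ⟨hb, hb'⟩
    refine ⟨fun g i j => ?_, fun x hx i => ?_⟩
    · rw [Pi.add_apply, Pi.add_apply, Pi.add_apply, Pi.add_apply, ha, hb, mul_add]
    · simp only [Pi.add_apply, add_mul, sum_add_distrib]
      rw [ha' x hx i, hb' x hx i, add_zero]
  smul_mem' := by
    rintro r a ⟨ha, ha'⟩
    refine ⟨fun g i j => ?_, fun x hx i => ?_⟩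
    · simp only [Pi.smul_apply, smul_eq_mul]
      rw [ha]
      ring
    · simp only [Pi.smul_apply, smul_eq_mul, mul_assoc, ← mul_sum]
      rw [ha' x hx i, mul_zero]

/-- The real vectors of the real span of a rational subspace, as a subspace of the Euclidean
space. -/
noncomputable def rspan (B : Submodule ℚ (ι → ℚ)) : Submodule ℝ (EuclideanSpace ℝ ι) :=
  Submodule.span ℝ ((fun s : ι → ℚ => WithLp.toLp 2 (castR s)) '' (B : Set (ι → ℚ)))

end Pool.MP43e44c
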