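import Pool.Agent.H.MP_43e44c_ag.SB.Hol

/-!
Hölder's inequality over the translates of a basis, over a finite field.
-/

set_option autoImplicit false

open Finset

namespace Pool.MP43e44c

/-- Products over the group, real version. -/
theorem hol_prod_orbit {Γ ι : Type*} [Group Γ] [Fintype Γ] [MulAction Γ ι] [Fintype ι]
    [MulAction.IsPretransitive Γ ι] {m : ℕ} (hm : m * Fintype.card ι = Fintype.card Γ) (x : ι)
    (F : ι → ℝ) : ∏ g : Γ, F (g • x) = (∏ i, F i) ^ m := by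
  classical
  have h1 : ∏ g : Γ, F (g • x) = ∏ z : ι, ∏ g ∈ univ.filter (fun g : Γ => g • x = z), F (g • x) :=
    (Finset.prod_fiberwise_of_maps_to (fun _ _ => mem_univ _) _).symm
  rw [h1, ← Finset.prod_pow]
  refine Finset.prod_congr rfl fun z _ => ?_
  have h2 : (univ.filter fun g : Γ => g • x = z).card = m := by
    have h3 := card_smul_eq_mul (Γ := Γ) x z
    have h4 : 0 < Fintype.card ι := Fintype.card_pos_iff.2 ⟨x⟩
    rw [← hm] at h3
    exact Nat.eq_of_mul_eq_mul_right h4 h3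
  rw [← h2, ← Finset.prod_const]
  exact Finset.prod_congr rfl fun g hg => by rw [(mem_filter.1 hg).2]

/-- Let `n = card ι`, `k = n / d`, `A_θ(i) = ∑ l, θ l * A l i`.  By transitivity every `i` equals
`g • f j` for exactly `d * card Γ / n = card Γ / k` pairs `(g, j)` (`prod_orbit`,
`card_smul_eq_mul` in SB/Hol.lean), so
`∏ i, φ (A_θ i) = ∏ g, (∏ j, φ (A_θ (g • f j)) ^ k) ^ (1 / card Γ)
  ≤ (1 / card Γ) ∑ g, ∏ j, φ (A_θ (g • f j)) ^ k`
(`Real.inner_le_nnorm_mul_nnorm` is not needed: this is AM-GM,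
`Real.geom_mean_le_arith_mean_weighted`).  For fixed `g` the map
`θ ↦ (A_θ (g • f j))_j` is a bijection of `Fin d → ZMod p` because the matrix
`A.submatrix id (g • f ·)` is invertible, so
`∑ θ, ∏ j, φ (A_θ (g • f j)) ^ k = ∑ η, ∏ j, φ (η j) ^ k = (∑ a, φ a ^ k) ^ d`
(`Finset.prod_univ_sum`, `Fintype.piFinset_univ`, or `Finset.sum_pow'`/`Fintype.sum_pow`). -/
theorem fin_holder {Γ ι : Type*} [Group Γ] [Fintype Γ] [MulAction Γ ι] [Fintype ι]
    [MulAction.IsPretransitive Γ ι] {p : ℕ} [Fact p.Prime] {d : ℕ} (hd : 0 < d)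
    (A : Matrix (Fin d) ι (ZMod p)) (f : Fin d → ι)
    (hdet : ∀ g : Γ, (A.submatrix id fun j => g • f j).det ≠ 0)
    {φ : ZMod p → ℝ} (hφ : ∀ a, 0 ≤ φ a) :
    ∑ θ : Fin d → ZMod p, ∏ i, φ (∑ l, θ l * A l i)
      ≤ (∑ a : ZMod p, φ a ^ ((Fintype.card ι : ℝ) / d)) ^ d := by
  classical
  have x₀ : ι := f ⟨0, hd⟩
  obtain ⟨m, hm⟩ : ∃ m, m * Fintype.card ι = Fintype.card Γ := ⟨_, card_smul_eq_mul x₀ x₀⟩
  set n := Fintype.card Γ with hn
  have hn0 : 0 < n := Fintype.card_pos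
  have hnR : (0 : ℝ) < n := by exact_mod_cast hn0
  have hdR : (0 : ℝ) < d := by exact_mod_cast hd
  have hc0 : 0 < Fintype.card ι := Fintype.card_pos_iff.2 ⟨x₀⟩
  have hcR : (0 : ℝ) < Fintype.card ι := by exact_mod_cast hc0
  set k : ℝ := (Fintype.card ι : ℝ) / d with hk
  have hk0 : 0 < k := div_pos hcR hdR
  let G : Γ → (Fin d → ZMod p) → ℝ := fun g θ => ∏ j, φ (∑ l, θ l * A l (g • f j)) ^ k
  have hG0 : ∀ g θ, 0 ≤ G g θ := fun g θ => prod_nonneg fun j _ => Real.rpow_nonneg (hφ _) _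
  -- pointwise AM-GM
  have hpt : ∀ θ : Fin d → ZMod p,
      ∏ i, φ (∑ l, θ l * A l i) = ∏ g : Γ, G g θ ^ (1 / (n : ℝ)) := by
    intro θ
    have hP0 : 0 ≤ ∏ i, φ (∑ l, θ l * A l i) := prod_nonneg fun i _ => hφ _
    rw [Real.finsetProd_rpow _ _ (fun g _ => hG0 g θ)]
    have h1 : ∏ g : Γ, G g θ = ((∏ i, φ (∑ l, θ l * A l i)) ^ (m * d)) ^ k := by
      simp only [G]
      have h2 : ∀ g : Γ, ∏ j, φ (∑ l, θ l * A l (g • f j)) ^ k
          = (∏ j, φ (∑ l, θ l * A l (g • f j))) ^ k := fun g =>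
        Real.finsetProd_rpow _ _ (fun j _ => hφ _) _
      simp_rw [h2]
      rw [Real.finsetProd_rpow _ _ (fun g _ => prod_nonneg fun j _ => hφ _)]
      congr 1
      rw [Finset.prod_comm]
      rw [Finset.prod_congr rfl fun j _ => hol_prod_orbit (Γ := Γ) hm (f j)
        (fun i => φ (∑ l, θ l * A l i))]
      rw [Finset.prod_const, card_univ, Fintype.card_fin, pow_mul]
    rw [h1, ← Real.rpow_natCast, ← Real.rpow_mul hP0, ← Real.rpow_mul hP0]
    have h2 : ((m * d : ℕ) : ℝ) * k * (1 / (n : ℝ)) = 1 := by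
      rw [mul_one_div, div_eq_one_iff_eq hnR.ne']
      have h3 : (m : ℝ) * Fintype.card ι = n := by exact_mod_cast hm
      rw [← h3, hk]
      push_cast
      field_simp
    rw [h2, Real.rpow_one]
  have hle : ∀ θ : Fin d → ZMod p,
      ∏ i, φ (∑ l, θ l * A l i) ≤ ∑ g : Γ, (1 / (n : ℝ)) * G g θ := by
    intro θ
    rw [hpt θ]
    refine Real.geom_mean_le_arith_mean_weighted univ (fun _ => 1 / (n : ℝ)) (fun g => G g θ)
      (fun _ _ => by positivity) ?_ (fun g _ => hG0 g θ)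
    rw [sum_const, card_univ, ← hn, nsmul_eq_mul, mul_one_div, div_self hnR.ne']
  -- linear change of variables
  have hsum : ∀ g : Γ, ∑ θ, G g θ = (∑ a : ZMod p, φ a ^ k) ^ d := by
    intro g
    have hinj : Function.Injective fun θ : Fin d → ZMod p =>
        Matrix.vecMul θ (A.submatrix id fun j => g • f j) := by
      apply Matrix.vecMul_injective_of_isUnit
      rw [Matrix.isUnit_iff_isUnit_det]
      exact isUnit_iff_ne_zero.2 (hdet g)
    have hbij := Finite.injective_iff_bijective.1 hinj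
    rw [Fintype.sum_pow]
    refine Fintype.sum_bijective _ hbij _ _ fun θ => ?_
    simp only [G]
    refine Finset.prod_congr rfl fun j _ => ?_
    rfl
  calc ∑ θ : Fin d → ZMod p, ∏ i, φ (∑ l, θ l * A l i)
      ≤ ∑ θ : Fin d → ZMod p, ∑ g : Γ, (1 / (n : ℝ)) * G g θ := sum_le_sum fun θ _ => hle θ
    _ = ∑ g : Γ, (1 / (n : ℝ)) * ∑ θ, G g θ := by
        rw [sum_comm]
        exact sum_congr rfl fun g _ => (mul_sum _ _ _).symm
    _ = (∑ a : ZMod p, φ a ^ k) ^ d := by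
        rw [sum_congr rfl fun g _ => by rw [hsum g], sum_const, card_univ, ← hn, nsmul_eq_mul]
        field_simp

end Pool.MP43e44c
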