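import Pool.Agent.H.MP_43e44c_ag.MQ.Def

/-!
Real solutions of rational linear equations.
-/

set_option autoImplicit false

open Finset Module

namespace Pool.MP43e44c

/-- A nonzero real number is not killed by some `ℚ`-linear functional. -/
theorem exists_functional {y : ℝ} (hy : y ≠ 0) : ∃ l : ℝ →ₗ[ℚ] ℚ, l y ≠ 0 := by
  by_contra h
  push Not at h
  exact hy ((Module.forall_dual_apply_eq_zero_iff ℚ y).1 h)

/-- Let `F` be the `ℚ`-span in `ℝ` of the finitely many `y k`, `r_1, …, r_d` a basis of `F` and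
`λ_1, …, λ_d : ℝ → ℚ` `ℚ`-linear extensions of the dual basis (`LinearMap.exists_extend`).  Then
`y k = ∑_a λ_a (y k) r_a` for all `k`, i.e. `y = ∑_a r_a • castR (λ_a ∘ y)`, and
`λ_a ∘ y ∈ S`. -/
theorem mem_span_rat {κ : Type*} [Finite κ] (S : Submodule ℚ (κ → ℚ)) (y : κ → ℝ)
    (hy : ∀ l : ℝ →ₗ[ℚ] ℚ, (fun k => l (y k)) ∈ S) :
    y ∈ Submodule.span ℝ (castR '' (S : Set (κ → ℚ))) := by
  classical
  let F : Submodule ℚ ℝ := Submodule.span ℚ (Set.range y)
  have hfin : Module.Finite ℚ F := Module.Finite.span_of_finite ℚ (Set.finite_range y)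
  let b := finBasis ℚ F
  have hext : ∀ a, ∃ l : ℝ →ₗ[ℚ] ℚ, ∀ x : F, l x = b.coord a x := by
    intro a
    obtain ⟨l, hl⟩ := LinearMap.exists_extend (b.coord a)
    exact ⟨l, fun x => LinearMap.congr_fun hl x⟩
  choose l hl using hext
  have hyk : ∀ k, y k = ∑ a, ((l a (y k) : ℚ) : ℝ) * (b a : ℝ) := by
    intro k
    have hk : y k ∈ F := Submodule.subset_span ⟨k, rfl⟩
    have h1 := congrArg Subtype.val (b.sum_repr ⟨y k, hk⟩)
    simp only [Submodule.coe_sum, Submodule.coe_smul] at h1
    rw [← h1]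
    refine Finset.sum_congr rfl fun a _ => ?_
    have h2 := hl a ⟨y k, hk⟩
    rw [h1, h2, Basis.coord_apply, Rat.smul_def]
  have hy2 : y = ∑ a, (b a : ℝ) • castR (fun k => l a (y k)) := by
    funext k
    rw [Finset.sum_apply, hyk k]
    refine Finset.sum_congr rfl fun a _ => ?_
    rw [Pi.smul_apply, smul_eq_mul, castR, mul_comm]
  rw [hy2]
  exact Submodule.sum_mem _ fun a _ => Submodule.smul_mem _ _
    (Submodule.subset_span ⟨_, hy (l a), rfl⟩)

/-- A basis of `S` over `ℚ` is a basis of the real span of `S`: it spans, and it is linearly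
independent over `ℝ` (if `∑ c_a s_a = 0` with real `c_a`, apply `ℚ`-linear `l : ℝ → ℚ`:
`∑ l (c_a) s_a = 0`, so `l (c_a) = 0` for all `l`, so `c_a = 0`,
`Module.forall_dual_apply_eq_zero_iff`). -/
theorem finrank_span_rat {κ : Type*} [Finite κ] (S : Submodule ℚ (κ → ℚ)) :
    finrank ℝ (Submodule.span ℝ (castR '' (S : Set (κ → ℚ)))) = finrank ℚ S := by
  classical
  have : Fintype κ := Fintype.ofFinite κ
  let b := finBasis ℚ S
  have hind : LinearIndependent ℝ fun a => castR (b a : κ → ℚ) := by
    rw [Fintype.linearIndependent_iff]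
    intro c hc a
    by_contra hca
    obtain ⟨l, hl⟩ := exists_functional hca
    have h1 : ∑ a, l (c a) • b a = 0 := by
      apply Subtype.ext
      funext k
      have h2 := congrFun hc k
      rw [Finset.sum_apply] at h2
      have h3 := congrArg l h2
      rw [map_sum] at h3
      simp only [Submodule.coe_sum, Submodule.coe_smul, Finset.sum_apply, Pi.smul_apply,
        smul_eq_mul, ZeroMemClass.coe_zero, Pi.zero_apply, map_zero] at h3 ⊢
      rw [← h3]
      refine Finset.sum_congr rfl fun a _ => ?_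
      have h4 : c a * castR (b a : κ → ℚ) k = ((b a : κ → ℚ) k) • c a := by
        rw [castR, Rat.smul_def, mul_comm]
      rw [h4, map_smul, smul_eq_mul, mul_comm]
    have h5 := Fintype.linearIndependent_iff.1 b.linearIndependent _ h1 a
    exact hl h5
  have hspan : Submodule.span ℝ (castR '' (S : Set (κ → ℚ)))
      = Submodule.span ℝ (Set.range fun a => castR (b a : κ → ℚ)) := by
    apply le_antisymm
    · rw [Submodule.span_le]
      rintro _ ⟨s, hs, rfl⟩
      have h1 := congrArg Subtype.val (b.sum_repr ⟨s, hs⟩)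
      have h2 : castR s = ∑ a, ((b.repr ⟨s, hs⟩ a : ℚ) : ℝ) • castR (b a : κ → ℚ) := by
        funext k
        have h3 := congrFun h1 k
        simp only [Submodule.coe_sum, Submodule.coe_smul, Finset.sum_apply, Pi.smul_apply,
          smul_eq_mul] at h3
        rw [Finset.sum_apply, castR, ← h3]
        push_cast
        exact Finset.sum_congr rfl fun a _ => rfl
      rw [SetLike.mem_coe, h2]
      exact Submodule.sum_mem _ fun a _ => Submodule.smul_mem _ _
        (Submodule.subset_span ⟨a, rfl⟩)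
    · rw [Submodule.span_le]
      rintro _ ⟨a, rfl⟩
      exact Submodule.subset_span ⟨_, (b a).2, rfl⟩
  rw [hspan, finrank_span_eq_card hind, Fintype.card_fin]

end Pool.MP43e44c
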