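import Pool.Agent.H.MP_43e44c_ag.MQ.HDef
import Pool.Agent.H.MP_43e44c_ag.MQ.Rat

/-!
Real equivariant maps to the real span of a rational subspace which kill a sign vector.
-/

set_option autoImplicit false

open Finset Module

namespace Pool.MP43e44c

variable {Γ ι : Type*} [Group Γ] [MulAction Γ ι] [Fintype ι] (C : Coc Γ ι)

omit [Fintype ι] in
theorem kill_l_int (l : ℝ →ₗ[ℚ] ℚ) (n : ℤ) (x : ℝ) : l ((n : ℝ) * x) = (n : ℚ) * l x := by
  have h : (n : ℝ) * x = (n : ℚ) • x := by
    rw [Rat.smul_def]; norm_num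
  rw [h, map_smul, smul_eq_mul]

omit [Fintype ι] in
theorem kill_mem {V : Submodule ℚ (ι → ℚ)} {x : EuclideanSpace ℝ ι} (hx : x ∈ rspan V) :
    ∀ l : ℝ →ₗ[ℚ] ℚ, (fun i => l (x i)) ∈ V := by
  unfold rspan at hx
  induction hx using Submodule.span_induction with
  | mem x h =>
    obtain ⟨s, hs, rfl⟩ := h
    intro l
    have h2 : (fun i => l ((WithLp.toLp 2 (castR s) : EuclideanSpace ℝ ι) i)) = l 1 • s := by
      funext i
      have h3 : ((WithLp.toLp 2 (castR s) : EuclideanSpace ℝ ι) i) = (s i : ℚ) • (1 : ℝ) := by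
        rw [Rat.smul_def, mul_one]; rfl
      rw [h3, map_smul, Pi.smul_apply, smul_eq_mul, smul_eq_mul, mul_comm]
    rw [h2]
    exact V.smul_mem _ hs
  | zero =>
    intro l
    have h2 : (fun i => l ((0 : EuclideanSpace ℝ ι) i)) = 0 := by
      funext i
      simp
    rw [h2]
    exact V.zero_mem
  | add x y _ _ hx hy =>
    intro l
    have h2 : (fun i => l ((x + y) i)) = (fun i => l (x i)) + fun i => l (y i) := by
      funext i
      simp
    rw [h2]
    exact V.add_mem (hx l) (hy l)
  | smul r x _ hx =>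
    intro l
    let m : ℝ →ₗ[ℚ] ℝ :=
      { toFun := fun t => r * t
        map_add' := fun a b => mul_add _ _ _
        map_smul' := fun q a => by
          rw [RingHom.id_apply, Rat.smul_def, Rat.smul_def]; ring }
    have h2 := hx (l.comp m)
    exact h2

/-- Let `τ i j` be the matrix of `T ∘ (orthogonal projection to W)`, i.e. the `j`-th column is
`T (π_W e_j)`.  It is real, equivariant (`Eqv ℝ`; `Coc.act` on `e_j` and `Coc.starProjection_act`,
`C.sgn_cast`), nonzero, its columns are in `rspan V`, and `∑ j, τ i j * ε_j = 0`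
since `π_W (sv v) = 0`.  Choose `i₀, j₀` with `τ i₀ j₀ ≠ 0` and a `ℚ`-linear `l : ℝ → ℚ` with
`l (τ i₀ j₀) ≠ 0` (`exists_functional`).  Then `fun i j => l (τ i j)` is a rational matrix as
in the definition of `KillSet V` (its columns are in `V`: if `x ∈ rspan V`, then `x` is a real
combination of vectors of `V` and `l ∘ x` a rational one). -/
theorem mem_killSet_of_hom {V : Submodule ℚ (ι → ℚ)} {W : Submodule ℝ (EuclideanSpace ℝ ι)}
    (hW : C.Inv W) {T : W →L[ℝ] EuclideanSpace ℝ ι} (hT : T ∈ C.Hom W) (hT0 : T ≠ 0)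
    (hTV : ∀ w, T w ∈ rspan V) {v : ι → Bool} (hv : SOrth v W) : v ∈ C.KillSet V := by
  classical
  let π : EuclideanSpace ℝ ι →ₗ[ℝ] W := (W.orthogonalProjectionOnto : EuclideanSpace ℝ ι →ₗ[ℝ] W)
  have hπ : ∀ x, ((π x : W) : EuclideanSpace ℝ ι) = W.starProjection x := fun x => rfl
  let A : EuclideanSpace ℝ ι →ₗ[ℝ] EuclideanSpace ℝ ι := (T : W →ₗ[ℝ] EuclideanSpace ℝ ι).comp π
  have hA : ∀ x, A x = T (π x) := fun x => rfl
  let τ : ι → ι → ℝ := fun i j => A (EuclideanSpace.single j (1 : ℝ)) i
  have hexp : ∀ x : EuclideanSpace ℝ ι, ∀ i, A x i = ∑ j, τ i j * x j := by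
    intro x i
    have h1 : x = ∑ j, x j • EuclideanSpace.single j (1 : ℝ) := by
      ext k
      rw [WithLp.ofLp_sum, Finset.sum_apply, Finset.sum_eq_single k]
      · simp
      · intro b _ hb
        simp [Ne.symm hb]
      · intro h
        exact absurd (mem_univ k) h
    conv_lhs => rw [h1, map_sum]
    simp only [map_smul]
    rw [WithLp.ofLp_sum, Finset.sum_apply]
    refine sum_congr rfl fun j _ => ?_
    rw [PiLp.smul_apply, smul_eq_mul, mul_comm]
  have hEq : C.Eqv ℝ τ := by
    intro g i j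
    have h1 : (EuclideanSpace.single (g • j) (1 : ℝ) : EuclideanSpace ℝ ι)
        = C.act g (C.ε g j • EuclideanSpace.single j (1 : ℝ)) := by
      rw [map_smul, C.act_single, mul_one]
      ext k
      simp only [PiLp.smul_apply, PiLp.single_apply, smul_eq_mul]
      split_ifs
      · rw [C.mul_self]
      · rw [mul_zero]
    have h2 : A (EuclideanSpace.single (g • j) (1 : ℝ))
        = C.act g (C.ε g j • A (EuclideanSpace.single j (1 : ℝ))) := by
      rw [h1, ← map_smul A, hA, hA]
      apply hT g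
      rw [hπ, hπ]
      exact (C.starProjection_act hW g _).symm
    show A (EuclideanSpace.single (g • j) (1 : ℝ)) (g • i) = _
    rw [h2, C.act_apply_smul, PiLp.smul_apply, smul_eq_mul, C.sgn_cast, C.sgn_cast, mul_assoc]
  have hne : ∃ i₀ j₀, τ i₀ j₀ ≠ 0 := by
    by_contra hcon
    push Not at hcon
    apply hT0
    ext w i
    have h1 : A (w : EuclideanSpace ℝ ι) = T w := by
      rw [hA]
      congr 1
      apply Subtype.ext
      rw [hπ]
      exact Submodule.starProjection_eq_self_iff.2 w.2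
    rw [← h1, hexp]
    simp [hcon]
  obtain ⟨i₀, j₀, h0⟩ := hne
  obtain ⟨l, hl⟩ := exists_functional h0
  have hsv : A (sv v) = 0 := by
    rw [hA]
    have : π (sv v) = 0 := by
      apply Subtype.ext
      rw [hπ]
      refine (Submodule.starProjection_apply_eq_zero_iff W).2 ?_
      intro x hx
      rw [real_inner_comm]
      exact hv x hx
    rw [this, map_zero]
  refine ⟨fun i j => l (τ i j), ?_, ?_, ?_, ?_⟩
  · intro g i j
    show l (τ (g • i) (g • j)) = _
    rw [hEq g i j, mul_assoc, kill_l_int, kill_l_int, mul_assoc]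
  · intro h
    exact hl (congrFun (congrFun h i₀) j₀)
  · intro j
    exact kill_mem (hTV _) l
  · intro i
    have h1 : ∑ j, τ i j * (sv v) j = 0 := by
      rw [← hexp, hsv]; rfl
    have h2 : ∀ j, l (τ i j) * svr ℚ v j = l (τ i j * (sv v) j) := by
      intro j
      have h3 : (sv v) j = (((if v j then 1 else -1 : ℤ) : ℤ) : ℝ) := by
        show (if v j then (1 : ℝ) else -1) = _
        split_ifs <;> simp
      have h4 : svr ℚ v j = (((if v j then 1 else -1 : ℤ) : ℤ) : ℚ) := by
        show (if v j then (1 : ℚ) else -1) = _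
        split_ifs <;> simp
      rw [h3, h4, mul_comm (τ i j), kill_l_int, mul_comm]
    rw [sum_congr rfl fun j _ => h2 j, ← map_sum, h1, map_zero]

end Pool.MP43e44c
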