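import Pool.Agent.H.MP_43e44c_ag.MQ.HDef
import Pool.Agent.H.MP_43e44c_ag.MQ.Rat

/-!
Rational subspaces all of whose real constituents have large multiplicity.
-/

set_option autoImplicit false

open Finset Module

namespace Pool.MP43e44c

variable {Γ ι : Type*} [Group Γ] [Fintype Γ] [MulAction Γ ι] [Fintype ι] (C : Coc Γ ι)

/-- The real equivariant matrices vanishing on the orthogonal complement of a subspace. -/
def largeR (W : Submodule ℝ (EuclideanSpace ℝ ι)) : Submodule ℝ (ι → ι → ℝ) where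
  carrier := {τ | C.Eqv ℝ τ ∧ ∀ x ∈ Wᗮ, ∀ i, ∑ j, τ i j * x j = 0}
  zero_mem' := by
    refine ⟨fun g i j => by simp, fun x _ i => by simp⟩
  add_mem' := by
    rintro a b ⟨ha, ha'⟩ ⟨hb, hb'⟩
    refine ⟨fun g i j => ?_, fun x hx i => ?_⟩
    · rw [Pi.add_apply, Pi.add_apply, Pi.add_apply, Pi.add_apply, ha, hb, mul_add]
    · simp only [Pi.add_apply, add_mul, sum_add_distrib]
      rw [ha' x hx i, hb' x hx i, add_zero]
  smul_mem' := by
    rintro r a ⟨ha, ha'⟩
    refine ⟨fun g i j => ?_, fun x hx i => ?_⟩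
    · simp only [Pi.smul_apply, smul_eq_mul]
      rw [ha]
      ring
    · simp only [Pi.smul_apply, smul_eq_mul, mul_assoc, ← mul_sum]
      rw [ha' x hx i, mul_zero]

omit [Fintype Γ] in
theorem large_mono {W W' : Submodule ℝ (EuclideanSpace ℝ ι)} (h : W ≤ W') :
    largeR C W ≤ largeR C W' := by
  rintro τ ⟨h1, h2⟩
  exact ⟨h1, fun x hx i => h2 x (Submodule.orthogonal_le h hx) i⟩

omit [Fintype Γ] in
theorem large_inf {U W : Submodule ℝ (EuclideanSpace ℝ ι)} (h : U ≤ Wᗮ) :
    largeR C U ⊓ largeR C W = ⊥ := by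
  classical
  rw [eq_bot_iff]
  rintro τ ⟨⟨_, h1⟩, ⟨_, h2⟩⟩
  rw [Submodule.mem_bot]
  have h3 : ∀ (x : EuclideanSpace ℝ ι) (i : ι), ∑ j, τ i j * x j = 0 := by
    intro x i
    have h4 : ∀ j, x j = U.starProjection x j + (x - U.starProjection x) j := by
      intro j
      rw [PiLp.sub_apply]; ring
    simp only [h4, mul_add, sum_add_distrib]
    rw [h2 _ (h (Submodule.starProjection_apply_mem U x)) i,
      h1 _ (Submodule.sub_starProjection_mem_orthogonal (K := U) x) i, add_zero]
  funext i j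
  have h5 := h3 (EuclideanSpace.single j 1) i
  rw [sum_eq_single j] at h5
  · simpa using h5
  · intro b _ hb
    simp [hb]
  · intro h
    exact absurd (mem_univ j) h

omit [Fintype Γ] [MulAction Γ ι] [Group Γ] in
theorem large_sum (x : EuclideanSpace ℝ ι) [DecidableEq ι] :
    x = ∑ j, x j • EuclideanSpace.single j (1 : ℝ) := by
  ext i
  simp [Finset.sum_apply, Pi.single_apply]

open Classical in
/-- The matrix of an operator. -/
noncomputable def largeMat {U : Submodule ℝ (EuclideanSpace ℝ ι)}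
    (T : U →L[ℝ] EuclideanSpace ℝ ι) : ι → ι → ℝ :=
  fun i j => T (U.orthogonalProjection (EuclideanSpace.single j 1)) i

omit [Fintype Γ] [MulAction Γ ι] [Group Γ] in
theorem large_mat_mul {U : Submodule ℝ (EuclideanSpace ℝ ι)}
    (T : U →L[ℝ] EuclideanSpace ℝ ι) (x : EuclideanSpace ℝ ι) (i : ι) :
    ∑ j, largeMat T i j * x j = T (U.orthogonalProjection x) i := by
  classical
  conv_rhs => rw [large_sum x, map_sum, map_sum]
  rw [WithLp.ofLp_sum, Finset.sum_apply]
  refine Finset.sum_congr rfl fun j _ => ?_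
  rw [map_smul, map_smul, PiLp.smul_apply, smul_eq_mul, mul_comm]
  unfold largeMat
  congr!

omit [Fintype Γ] in
theorem large_mat_mem {U : Submodule ℝ (EuclideanSpace ℝ ι)} (hU : C.Inv U)
    {T : U →L[ℝ] EuclideanSpace ℝ ι} (hT : T ∈ C.Hom U) : largeMat T ∈ largeR C U := by
  classical
  refine ⟨fun g i j => ?_, fun x hx i => ?_⟩
  · have h1 : (EuclideanSpace.single (g • j) (1 : ℝ) : EuclideanSpace ℝ ι) =
        C.act g (C.ε g j • EuclideanSpace.single j (1 : ℝ)) := by
      rw [map_smul, C.act_single]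
      ext l
      simp only [PiLp.smul_apply, smul_eq_mul, mul_one]
      by_cases hl : l = g • j
      · subst hl
        simp [C.mul_self]
      · simp [hl]
    have h2 : C.act g ((C.ε g j • U.orthogonalProjection (EuclideanSpace.single j (1 : ℝ)) : U) :
        EuclideanSpace ℝ ι) =
        (U.orthogonalProjection (EuclideanSpace.single (g • j) (1 : ℝ)) : EuclideanSpace ℝ ι) := by
      have h3 := C.starProjection_act hU g (C.ε g j • EuclideanSpace.single j (1 : ℝ))
      rw [← h1] at h3
      have h4 : (U.orthogonalProjection (EuclideanSpace.single (g • j) (1 : ℝ)) :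
          EuclideanSpace ℝ ι) = U.starProjection (EuclideanSpace.single (g • j) (1 : ℝ)) := rfl
      rw [h4, h3, map_smul]
      rfl
    have h5 := hT g _ _ h2
    have h6 : largeMat T (g • i) (g • j) =
        T (U.orthogonalProjection (EuclideanSpace.single (g • j) (1 : ℝ))) (g • i) := by
      unfold largeMat
      congr!
    have h7 : largeMat T i j = T (U.orthogonalProjection (EuclideanSpace.single j (1 : ℝ))) i := by
      unfold largeMat
      congr!
    rw [h6, h5, C.act_apply_smul, map_smul, PiLp.smul_apply, smul_eq_mul, ← h7, C.sgn_cast,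
      C.sgn_cast]
    ring
  · rw [large_mat_mul]
    have h1 : U.orthogonalProjection x = 0 :=
      Submodule.orthogonalProjection_mem_subspace_orthogonalComplement_eq_zero hx
    rw [h1, map_zero]
    rfl

omit [Fintype Γ] in
theorem large_hom {U : Submodule ℝ (EuclideanSpace ℝ ι)} (hU : C.Inv U) :
    finrank ℝ (C.Hom U) ≤ finrank ℝ (largeR C U) := by
  let Φ : C.Hom U →ₗ[ℝ] largeR C U :=
    { toFun := fun T => ⟨largeMat (T : U →L[ℝ] EuclideanSpace ℝ ι), large_mat_mem C hU T.2⟩
      map_add' := fun S T => rfl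
      map_smul' := fun r T => rfl }
  refine LinearMap.finrank_le_finrank_of_injective (f := Φ) ?_
  intro S T hST
  apply Subtype.ext
  ext u i
  have h1 : largeMat (S : U →L[ℝ] EuclideanSpace ℝ ι) = largeMat (T : U →L[ℝ] EuclideanSpace ℝ ι) :=
    congrArg Subtype.val hST
  have h2 := large_mat_mul (S : U →L[ℝ] EuclideanSpace ℝ ι) (u : EuclideanSpace ℝ ι) i
  have h3 := large_mat_mul (T : U →L[ℝ] EuclideanSpace ℝ ι) (u : EuclideanSpace ℝ ι) i
  rw [h1, h3, Submodule.orthogonalProjection_mem_subspace_eq_self] at h2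
  exact h2.symm

omit [Fintype Γ] in
theorem large_inv_rspan {B : Submodule ℚ (ι → ℚ)} (hB : C.PInv B) : C.Inv (rspan B) := by
  intro g x hx
  unfold rspan at hx ⊢
  induction hx using Submodule.span_induction with
  | mem x hx =>
    obtain ⟨s, hs, rfl⟩ := hx
    refine Submodule.subset_span ⟨C.pact ℚ g s, hB g s hs, ?_⟩
    ext i
    rw [C.act_apply]
    change ((C.pact ℚ g s i : ℚ) : ℝ) = C.ε g (g⁻¹ • i) * ((s (g⁻¹ • i) : ℚ) : ℝ)
    rw [C.pact_apply, ← C.sgn_cast]
    push_cast
    rfl
  | zero => rw [map_zero]; exact Submodule.zero_mem _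
  | add x y _ _ hx hy => rw [map_add]; exact Submodule.add_mem _ hx hy
  | smul r x _ hx => rw [map_smul]; exact Submodule.smul_mem _ r hx

omit [Fintype Γ] in
theorem large_real (V : Submodule ℝ (EuclideanSpace ℝ ι))
    (h : ∀ U ≤ V, C.Mnl U → finrank ℝ U < 2 * finrank ℝ (C.Hom U)) :
    ∀ N : ℕ, ∀ W ≤ V, C.Inv W → finrank ℝ W = N → finrank ℝ W ≤ 2 * finrank ℝ (largeR C W) := by
  intro N
  induction N using Nat.strong_induction_on with
  | _ N ih =>
    intro W hWV hW hN
    by_cases h0 : W = ⊥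
    · subst h0
      rw [finrank_bot]
      exact Nat.zero_le _
    · obtain ⟨U, hUW, hU⟩ := C.exists_mnl hW h0
      have hUV : U ≤ V := hUW.trans hWV
      have hW' : C.Inv (W ⊓ Uᗮ) := by
        intro g x hx
        exact ⟨hW g x hx.1, C.inv_orthogonal hU.1 g x hx.2⟩
      have hdim : finrank ℝ U + finrank ℝ (W ⊓ Uᗮ : Submodule ℝ (EuclideanSpace ℝ ι)) =
          finrank ℝ W := by
        have h1 : U ⊔ (W ⊓ Uᗮ) = W := by
          have := Submodule.sup_orthogonal_inf_of_hasOrthogonalProjection hUW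
          rwa [inf_comm] at this
        have h2 := Submodule.finrank_sup_add_finrank_inf_eq U (W ⊓ Uᗮ)
        have h3 : U ⊓ (W ⊓ Uᗮ) = ⊥ := by
          rw [eq_bot_iff]
          rintro x ⟨hx1, _, hx2⟩
          have : x ∈ U ⊓ Uᗮ := ⟨hx1, hx2⟩
          rwa [Submodule.inf_orthogonal_eq_bot] at this
        rw [h1, h3, finrank_bot, add_zero] at h2
        exact h2.symm
      have hU0 : 0 < finrank ℝ U := by
        have hnt : Nontrivial U := Submodule.nontrivial_iff_ne_bot.2 hU.2.1
        exact finrank_pos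
      have h4 := ih (finrank ℝ (W ⊓ Uᗮ : Submodule ℝ (EuclideanSpace ℝ ι))) (by omega)
        (W ⊓ Uᗮ) (inf_le_left.trans hWV) hW' rfl
      have h5 := h U hUV hU
      have h6 := large_hom C hU.1
      have h7 : U ≤ (W ⊓ Uᗮ)ᗮ := by
        refine (Submodule.le_orthogonal_orthogonal U).trans ?_
        exact Submodule.orthogonal_le inf_le_right
      have h8 := Submodule.finrank_sup_add_finrank_inf_eq (largeR C U) (largeR C (W ⊓ Uᗮ))
      rw [large_inf C h7, finrank_bot, add_zero] at h8
      have h9 : finrank ℝ (largeR C U ⊔ largeR C (W ⊓ Uᗮ) : Submodule ℝ (ι → ι → ℝ)) ≤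
          finrank ℝ (largeR C W) :=
        Submodule.finrank_mono (sup_le (large_mono C hUW) (large_mono C inf_le_left))
      omega

omit [Fintype Γ] [MulAction Γ ι] [Group Γ] in
theorem large_rspan (B : Submodule ℚ (ι → ℚ)) : finrank ℝ (rspan B) = finrank ℚ B := by
  rw [← finrank_span_rat B]
  have h1 : rspan B = (Submodule.span ℝ (castR '' (B : Set (ι → ℚ)))).map
      ((WithLp.linearEquiv 2 ℝ (ι → ℝ)).symm : (ι → ℝ) →ₗ[ℝ] EuclideanSpace ℝ ι) := by
    rw [Submodule.map_span, ← Set.image_comp]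
    rfl
  rw [h1]
  exact LinearEquiv.finrank_map_eq (WithLp.linearEquiv 2 ℝ (ι → ℝ)).symm _

omit [Fintype Γ] in
theorem large_le_rat (B : Submodule ℚ (ι → ℚ)) :
    finrank ℝ (largeR C (rspan B)) ≤ finrank ℚ (hmat C ℚ B) := by
  let e : (ι × ι → ℚ) ≃ₗ[ℚ] (ι → ι → ℚ) := LinearEquiv.curry ℚ ℚ ι ι
  let S : Submodule ℚ (ι × ι → ℚ) := (hmat C ℚ B).map (e.symm : (ι → ι → ℚ) →ₗ[ℚ] (ι × ι → ℚ))
  have hS : finrank ℚ S = finrank ℚ (hmat C ℚ B) := LinearEquiv.finrank_map_eq e.symm _
  rw [← hS, ← finrank_span_rat S]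
  let Φ : (ι → ι → ℝ) →ₗ[ℝ] (ι × ι → ℝ) :=
    ((LinearEquiv.curry ℝ ℝ ι ι).symm : (ι → ι → ℝ) →ₗ[ℝ] (ι × ι → ℝ))
  have hmem : ∀ τ ∈ largeR C (rspan B), Φ τ ∈ Submodule.span ℝ (castR '' (S : Set (ι × ι → ℚ))) := by
    rintro τ ⟨hτ, hτ'⟩
    apply mem_span_rat
    intro l
    have hl : (fun i j => l (τ i j)) ∈ hmat C ℚ B := by
      refine ⟨fun g i j => ?_, fun x hx i => ?_⟩
      · change l (τ (g • i) (g • j)) = (C.sgn g i : ℚ) * (C.sgn g j : ℚ) * l (τ i j)
        rw [hτ g i j]
        have h1 : ((C.sgn g i : ℤ) : ℝ) * ((C.sgn g j : ℤ) : ℝ) * τ i j =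
            ((C.sgn g i : ℚ) * (C.sgn g j : ℚ)) • τ i j := by
          rw [Rat.smul_def]
          push_cast
          ring
        rw [h1, map_smul, smul_eq_mul]
      · have h1 : (WithLp.toLp 2 (castR x) : EuclideanSpace ℝ ι) ∈ (rspan B)ᗮ := by
          intro y hy
          unfold rspan at hy
          induction hy using Submodule.span_induction with
          | mem y hy =>
            obtain ⟨s, hs, rfl⟩ := hy
            rw [PiLp.inner_apply]
            simp only [RCLike.inner_apply, conj_trivial]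
            have h2 := hx s hs
            have h3 : ((∑ i, x i * s i : ℚ) : ℝ) = 0 := by rw [h2]; simp
            push_cast at h3
            exact h3
          | zero => rw [inner_zero_left]
          | add y z _ _ hy hz => rw [inner_add_left, hy, hz, add_zero]
          | smul r y _ hy => rw [inner_smul_left, hy, mul_zero]
        have h4 := hτ' _ h1 i
        have h5 : ∑ j, l (τ i j) * x j = l (∑ j, τ i j * ((x j : ℚ) : ℝ)) := by
          rw [map_sum]
          refine Finset.sum_congr rfl fun j _ => ?_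
          have h6 : τ i j * ((x j : ℚ) : ℝ) = x j • τ i j := by
            rw [Rat.smul_def, mul_comm]
          rw [h6, map_smul, smul_eq_mul, mul_comm]
        rw [h5]
        have h7 : ∑ j, τ i j * ((x j : ℚ) : ℝ) = 0 := h4
        rw [h7, map_zero]
    exact ⟨_, hl, rfl⟩
  let Ψ : largeR C (rspan B) →ₗ[ℝ] Submodule.span ℝ (castR '' (S : Set (ι × ι → ℚ))) :=
    LinearMap.restrict Φ hmem
  refine LinearMap.finrank_le_finrank_of_injective (f := Ψ) ?_
  intro a b hab
  apply Subtype.ext
  have h1 : Φ a = Φ b := congrArg Subtype.val hab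
  exact (LinearEquiv.curry ℝ ℝ ι ι).symm.injective h1

/-- Let all minimal `U ≤ rspan B` satisfy `finrank U < 2 finrank (Hom U)`.  Then
`finrank B ≤ 2 finrank (hmat ℚ B)`.  Proof: (i) for real invariant `W ≤ rspan B`, by induction on the
dimension, `finrank W ≤ 2 finrank (hmatR W)`, where `hmatR W` is the space of real equivariant
matrices vanishing on the orthogonal complement of `W`: for `W ≠ ⊥` take a minimal `U ≤ W`
(`Coc.exists_mnl`) and `W' = W ⊓ Uᗮ`, invariant (`Coc.inv_orthogonal`), with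
`finrank W = finrank U + finrank W'`.  For `T ∈ Hom U` the matrix of `T ∘ (projection to U)` is
in `hmatR U` and this is linear and injective, so `finrank (Hom U) ≤ finrank (hmatR U)`;
`hmatR U` and `hmatR W'` are contained in `hmatR W` and meet in `0` (an element of both vanishes on
`Uᗮ + W'ᗮ = ⊤`), so `finrank (hmatR W) ≥ finrank (hmatR U) + finrank (hmatR W')`.
(ii) For `τ ∈ hmatR (rspan B)` and `ℚ`-linear `l : ℝ → ℚ` the matrix `l ∘ τ` is in `hmat ℚ B` (the
equations have rational coefficients: a rational vector orthogonal to `B` is orthogonal to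
`rspan B`), so by `mem_span_rat`, `finrank_span_rat` (for the index set `ι × ι`)
`finrank (hmatR (rspan B)) ≤ finrank (hmat ℚ B)`.  (iii) `finrank (rspan B) = finrank B` by
`finrank_span_rat`. -/
theorem finrank_le_of_large (B : Submodule ℚ (ι → ℚ)) (hB : C.PInv B)
    (h : ∀ U ≤ rspan B, C.Mnl U → finrank ℝ U < 2 * finrank ℝ (C.Hom U)) :
    finrank ℚ B ≤ 2 * finrank ℚ (hmat C ℚ B) := by
  have h1 := large_real C (rspan B) h _ (rspan B) le_rfl (large_inv_rspan C hB) rfl
  have h2 := large_le_rat C B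
  rw [large_rspan] at h1
  omega

end Pool.MP43e44c
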