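import Mathlib

/-!
The choice of the prime.
-/

set_option autoImplicit false

open Finset

namespace Pool.MP43e44c

/-- Let `P = √(n / (m log n))`.  If `P < 4`, then `m √m √(log n / n) ≥ √(m log n / n) = 1 / P > 1/4`
and the first alternative holds with `C ≥ 4`.  If `P ≥ 4`, let `q = ⌊P / 2⌋ ≥ 2` and take by
Bertrand's postulate (`Nat.exists_prime_lt_and_le_two_mul`) a prime `q < p ≤ 2 q`.  So
`3 ≤ p ≤ P` and `p - 1 ≥ q ≥ P / 2 - 1 ≥ P / 4`.  Then `p ^ 2 ≤ n / (m log n)`, hence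
`2 (n / m) / p ^ 2 ≥ 2 log n`, `exp (-(…)) ≤ n ^ (-2)`, and
`(1 + p exp (-…)) ^ m ≤ exp (m p / n ^ 2) ≤ exp 1 ≤ 3` since `m p ^ 2 ≤ n / log n ≤ 2 n`, so
`m p ≤ m p ^ 2 ≤ 2 n ≤ n ^ 2`.  Finally `m * 3 ≤ C m √m √(log n / n) (p - 1)` for `C ≥ 12`, since
`√m √(log n / n) (p - 1) ≥ P⁻¹ P / 4 = 1 / 4`.  So `C = 12` works. -/
theorem modp_num : ∃ C : ℝ, 0 < C ∧ ∀ n m : ℕ, 1 ≤ m → 2 ≤ n →
    1 ≤ C * ((m : ℝ) * Real.sqrt m * Real.sqrt (Real.log n / n)) ∨
    ∃ p : ℕ, p.Prime ∧ p ≠ 2 ∧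
      (m : ℝ) * (1 + p * Real.exp (-(2 * ((n : ℝ) / m) / (p : ℝ) ^ 2))) ^ m
        ≤ C * ((m : ℝ) * Real.sqrt m * Real.sqrt (Real.log n / n)) * (p - 1) := by
  refine ⟨12, by norm_num, ?_⟩
  intro n m hm hn
  have hm' : (1 : ℝ) ≤ m := by exact_mod_cast hm
  have hm0 : (0 : ℝ) < m := by linarith
  have hn' : (2 : ℝ) ≤ n := by exact_mod_cast hn
  have hn0 : (0 : ℝ) < n := by linarith
  have hlog2 : (1 / 2 : ℝ) ≤ Real.log 2 := by
    have := Real.log_two_gt_d9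
    linarith
  have hlog : (1 / 2 : ℝ) ≤ Real.log n := by
    have := Real.log_le_log (by norm_num) hn'
    linarith
  have hlog0 : 0 < Real.log n := by linarith
  set s : ℝ := Real.sqrt m * Real.sqrt (Real.log n / n) with hs
  have hs0 : 0 < s := mul_pos (Real.sqrt_pos.2 hm0) (Real.sqrt_pos.2 (div_pos hlog0 hn0))
  have hs2 : s ^ 2 * n = m * Real.log n := by
    rw [hs, mul_pow, Real.sq_sqrt hm0.le, Real.sq_sqrt (div_pos hlog0 hn0).le]
    field_simp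
  have hms : (m : ℝ) * Real.sqrt m * Real.sqrt (Real.log n / n) = m * s := by
    rw [hs, mul_assoc]
  rw [hms]
  by_cases hcase : 1 / 4 < s
  · left
    nlinarith
  · right
    have hs4 : s ≤ 1 / 4 := not_lt.1 hcase
    have hP4 : (4 : ℝ) ≤ s⁻¹ := by
      rw [le_inv_comm₀ (by norm_num) hs0]
      linarith
    set q : ℕ := ⌊s⁻¹ / 2⌋₊ with hq
    have hq2 : 2 ≤ q := by
      rw [hq]
      apply Nat.le_floor
      push_cast
      linarith
    have hqle : (q : ℝ) ≤ s⁻¹ / 2 := Nat.floor_le (by positivity)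
    have hqlt : s⁻¹ / 2 < q + 1 := Nat.lt_floor_add_one _
    obtain ⟨p, hp, hqp, hp2⟩ := Nat.exists_prime_lt_and_le_two_mul q (by omega)
    refine ⟨p, hp, by omega, ?_⟩
    have hpP : (p : ℝ) ≤ s⁻¹ := by
      have h1 : (p : ℝ) ≤ 2 * q := by exact_mod_cast hp2
      linarith
    have hp1 : (q : ℝ) + 1 ≤ p := by exact_mod_cast hqp
    have hp0 : (1 : ℝ) ≤ p := by
      have : (0 : ℝ) ≤ q := Nat.cast_nonneg q
      linarith
    have hpq : s⁻¹ / 4 ≤ (p : ℝ) - 1 := by linarith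
    have hsp : s * p ≤ 1 := by
      calc s * p ≤ s * s⁻¹ := by gcongr
        _ = 1 := mul_inv_cancel₀ hs0.ne'
    have hsp0 : 0 ≤ s * p := by positivity
    have hkey : (p : ℝ) ^ 2 * (m * Real.log n) ≤ n := by
      rw [← hs2]
      have h1 : (s * p) ^ 2 ≤ 1 := by nlinarith
      calc (p : ℝ) ^ 2 * (s ^ 2 * (n : ℝ)) = (s * (p : ℝ)) ^ 2 * (n : ℝ) := by ring
        _ ≤ 1 * (n : ℝ) := by gcongr
        _ = (n : ℝ) := one_mul _
    have hexp : 2 * Real.log n ≤ 2 * ((n : ℝ) / m) / (p : ℝ) ^ 2 := by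
      rw [le_div_iff₀ (by positivity), mul_div_assoc', le_div_iff₀ hm0]
      nlinarith
    have hexp2 : Real.exp (-(2 * ((n : ℝ) / m) / (p : ℝ) ^ 2)) ≤ 1 / (n : ℝ) ^ 2 := by
      calc Real.exp (-(2 * ((n : ℝ) / m) / (p : ℝ) ^ 2)) ≤ Real.exp (-(2 * Real.log n)) := by
            apply Real.exp_le_exp.2
            linarith
        _ = 1 / (n : ℝ) ^ 2 := by
            rw [Real.exp_neg, two_mul, Real.exp_add, Real.exp_log hn0, one_div, pow_two]
    have hmp : (m : ℝ) * p ≤ (n : ℝ) ^ 2 := by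
      have h1 : (p : ℝ) ^ 2 * m ≤ 2 * n := by
        have h2 : (p : ℝ) ^ 2 * m * (1 / 2) ≤ (p : ℝ) ^ 2 * m * Real.log n := by gcongr
        nlinarith
      have h3 : (m : ℝ) * p ≤ (p : ℝ) ^ 2 * m := by
        have h4 : (m : ℝ) * p * 1 ≤ (m : ℝ) * p * p := by gcongr
        calc (m : ℝ) * p = (m : ℝ) * p * 1 := by ring
          _ ≤ (m : ℝ) * p * p := h4
          _ = (p : ℝ) ^ 2 * m := by ring
      nlinarith
    have hpow : (1 + p * Real.exp (-(2 * ((n : ℝ) / m) / (p : ℝ) ^ 2))) ^ m ≤ 3 := by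
      set e := Real.exp (-(2 * ((n : ℝ) / m) / (p : ℝ) ^ 2)) with he
      have he0 : 0 < e := Real.exp_pos _
      have h1 : (1 + p * e) ^ m ≤ Real.exp (m * (p * e)) := by
        calc (1 + p * e) ^ m ≤ (Real.exp (p * e)) ^ m := by
              apply pow_le_pow_left₀ (by positivity)
              have := Real.add_one_le_exp (p * e)
              linarith
          _ = Real.exp (m * (p * e)) := by rw [← Real.exp_nat_mul]
      have h2 : (m : ℝ) * (p * e) ≤ 1 := by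
        have h3 : e * (n : ℝ) ^ 2 ≤ 1 := by
          calc e * (n : ℝ) ^ 2 ≤ 1 / (n : ℝ) ^ 2 * (n : ℝ) ^ 2 := by gcongr
            _ = 1 := by field_simp
        calc (m : ℝ) * (p * e) = (m * p) * e := by ring
          _ ≤ (n : ℝ) ^ 2 * e := by gcongr
          _ ≤ 1 := by linarith
      have h4 : Real.exp (m * (p * e)) ≤ Real.exp 1 := Real.exp_le_exp.2 h2
      have h5 := Real.exp_one_lt_d9
      linarith
    have hfin : 1 / 4 ≤ s * ((p : ℝ) - 1) := by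
      calc (1 / 4 : ℝ) = s * (s⁻¹ / 4) := by
            field_simp
        _ ≤ s * ((p : ℝ) - 1) := by gcongr
    calc (m : ℝ) * (1 + p * Real.exp (-(2 * ((n : ℝ) / m) / (p : ℝ) ^ 2))) ^ m ≤ m * 3 := by
          gcongr
      _ = 12 * m * (1 / 4) := by ring
      _ ≤ 12 * m * (s * ((p : ℝ) - 1)) := by gcongr
      _ = 12 * ((m : ℝ) * s) * (p - 1) := by ring

end Pool.MP43e44c
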