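import Pool.Agent.H.MP_43e44c_ag.MQ.Def

/-!
Reduction mod p of rational equivariant maps.
-/

set_option autoImplicit false

open Finset Module

namespace Pool.MP43e44c

variable {Γ ι : Type*} [Group Γ] [MulAction Γ ι] [Fintype ι] (C : Coc Γ ι)

/-- The reductions of the integral vectors of `V`. -/
def red_W (p : ℕ) (V : Submodule ℚ (ι → ℚ)) : Submodule (ZMod p) (ι → ZMod p) where
  carrier := {w | ∃ z : ι → ℤ, (fun i => (z i : ℚ)) ∈ V ∧ w = fun i => (z i : ZMod p)}
  zero_mem' := by
    refine ⟨0, ?_, ?_⟩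
    · have h : (fun i => (((0 : ι → ℤ) i : ℤ) : ℚ)) = 0 := by
        funext i
        simp
      rw [h]
      exact Submodule.zero_mem _
    · funext i
      simp
  add_mem' := by
    rintro a b ⟨z, hz, rfl⟩ ⟨z', hz', rfl⟩
    refine ⟨z + z', ?_, ?_⟩
    · have h : (fun i => (((z + z') i : ℤ) : ℚ)) = (fun i => (z i : ℚ)) + fun i => (z' i : ℚ) := by
        funext i
        simp
      rw [h]
      exact Submodule.add_mem _ hz hz'
    · funext i
      simp
  smul_mem' := by
    rintro r a ⟨z, hz, rfl⟩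
    obtain ⟨n, rfl⟩ := ZMod.intCast_surjective r
    refine ⟨fun i => n * z i, ?_, ?_⟩
    · have h : (fun i => ((n * z i : ℤ) : ℚ)) = (n : ℚ) • fun i => (z i : ℚ) := by
        funext i
        simp
      rw [h]
      exact Submodule.smul_mem _ _ hz
    · funext i
      simp

theorem red_inv (p : ℕ) {V : Submodule ℚ (ι → ℚ)} (hV : C.PInv V) : C.PInv (red_W p V) := by
  rintro g x ⟨z, hz, rfl⟩
  refine ⟨fun i => C.sgn g (g⁻¹ • i) * z (g⁻¹ • i), ?_, ?_⟩
  · have h := hV g _ hz
    have e : (fun i => ((C.sgn g (g⁻¹ • i) * z (g⁻¹ • i) : ℤ) : ℚ)) =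
        C.pact ℚ g (fun i => (z i : ℚ)) := by
      funext i
      rw [C.pact_apply]
      push_cast
      rfl
    rw [e]
    exact h
  · funext i
    rw [C.pact_apply]
    push_cast
    rfl

theorem red_dvd {p : ℕ} {κ : Type*} [Fintype κ] {g : κ → ℤ} (hp : p.Prime)
    (h1 : (Finset.univ : Finset κ).gcd g = 1) (h2 : ∀ k, ((g k : ℤ) : ZMod p) = 0) : False := by
  have h3 : (p : ℤ) ∣ (Finset.univ : Finset κ).gcd g := by
    apply Finset.dvd_gcd
    intro k _
    exact (ZMod.intCast_zmod_eq_zero_iff_dvd (g k) p).1 (h2 k)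
  rw [h1] at h3
  have h4 : (p : ℤ) ≤ 1 := Int.le_of_dvd one_pos h3
  have h5 := hp.one_lt
  omega

theorem red_finrank (p : ℕ) [Fact p.Prime] (V : Submodule ℚ (ι → ℚ)) :
    finrank (ZMod p) (red_W p V) ≤ finrank ℚ V := by
  classical
  let b := finBasis (ZMod p) (red_W p V)
  choose z hz hbz using fun k => (b k).2
  -- linear independence over the integers
  have hli : LinearIndependent ℤ fun k => (⟨fun i => (z k i : ℚ), hz k⟩ : V) := by
    rw [Fintype.linearIndependent_iff]
    intro c hc
    by_contra hcon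
    push Not at hcon
    obtain ⟨k₀, hk₀⟩ := hcon
    obtain ⟨g, hg, hg1⟩ := Finset.extract_gcd (s := Finset.univ) c ⟨k₀, mem_univ _⟩
    have hG : (Finset.univ : Finset (Fin (finrank (ZMod p) (red_W p V)))).gcd c ≠ 0 := by
      intro h
      apply hk₀
      rw [hg k₀ (mem_univ _), h, zero_mul]
    have hz0 : ∀ i, ∑ k, g k * z k i = 0 := by
      intro i
      have h1 : (∑ k, c k • (⟨fun i => (z k i : ℚ), hz k⟩ : V)).1 i = 0 := by
        rw [hc]
        rfl
      have h2 : (∑ k, c k • (⟨fun i => (z k i : ℚ), hz k⟩ : V)).1 i =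
          ∑ k, (c k : ℚ) * (z k i : ℚ) := by
        rw [Submodule.coe_sum, Finset.sum_apply]
        refine sum_congr rfl fun k _ => ?_
        show (c k • (fun i => (z k i : ℚ))) i = _
        rw [Pi.smul_apply, zsmul_eq_mul]
      rw [h2] at h1
      have h3 : ∑ k, c k * z k i = 0 := by exact_mod_cast h1
      have h4 : (Finset.univ : Finset (Fin (finrank (ZMod p) (red_W p V)))).gcd c *
          ∑ k, g k * z k i = 0 := by
        rw [mul_sum, ← h3]
        refine sum_congr rfl fun k _ => ?_
        conv_rhs => rw [hg k (mem_univ _)]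
        ring
      exact (mul_eq_zero.1 h4).resolve_left hG
    have hmod : ∑ k, ((g k : ℤ) : ZMod p) • b k = 0 := by
      apply Subtype.ext
      rw [Submodule.coe_sum]
      funext i
      rw [Finset.sum_apply]
      have h5 : ∀ k, (((g k : ℤ) : ZMod p) • b k : red_W p V).1 i =
          ((g k : ℤ) : ZMod p) * ((z k i : ℤ) : ZMod p) := by
        intro k
        show ((g k : ℤ) : ZMod p) * (b k).1 i = _
        rw [hbz k]
      rw [sum_congr rfl fun k _ => h5 k]
      have h6 := congrArg (fun n : ℤ => (n : ZMod p)) (hz0 i)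
      push_cast at h6
      exact h6
    have hlin := Fintype.linearIndependent_iff.1 b.linearIndependent _ hmod
    exact red_dvd (Fact.out : p.Prime) hg1 hlin
  have hliQ : LinearIndependent ℚ fun k => (⟨fun i => (z k i : ℚ), hz k⟩ : V) :=
    (LinearIndependent.iff_fractionRing ℤ ℚ).1 hli
  have h := hliQ.fintype_card_le_finrank
  rwa [Fintype.card_fin] at h

/-- Let `W` be the span of the reductions mod `p` of the integer vectors `z : ι → ℤ` whose image
in `ι → ℚ` lies in `V`.  It is invariant (`pact` has integer entries).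
Dimension: a basis of `W` can be chosen among the reductions `z_1, …, z_d` of such integer vectors
(`exists_linearIndependent` / `Submodule.exists_fun_fin_finrank_span_eq`); the `z_k` are linearly
independent over `ℚ`: a nontrivial relation can be scaled to have integer coefficients with gcd `1`
(`Finset.extract_gcd`), and gives mod `p` a nontrivial relation.  So `d ≤ finrank V`.
`KillSet V ⊆ KillSet W`: let `τ` be a nonzero rational matrix as in the definition.  Multiplying by a
common denominator (`IsLocalization.exist_integer_multiples_of_finset` or the product of the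
denominators) and dividing by the gcd of all entries (`Finset.extract_gcd`) we get an integer
matrix with the same properties and gcd of the entries `1`; its reduction mod `p` is nonzero. -/
theorem exists_red (p : ℕ) [Fact p.Prime] (V : Submodule ℚ (ι → ℚ)) (hV : C.PInv V) :
    ∃ W : Submodule (ZMod p) (ι → ZMod p), C.PInv W ∧ finrank (ZMod p) W ≤ finrank ℚ V ∧
      C.KillSet V ⊆ C.KillSet W := by
  classical
  refine ⟨red_W p V, red_inv C p hV, red_finrank p V, ?_⟩
  rintro v ⟨τ, hτ, hτ0, hτV, hτv⟩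
  obtain ⟨N, hN⟩ := IsLocalization.exist_integer_multiples_of_finite (nonZeroDivisors ℤ)
    (fun ij : ι × ι => τ ij.1 ij.2)
  choose T hT using hN
  have hT' : ∀ ij : ι × ι, (T ij : ℚ) = ((N : ℤ) : ℚ) * τ ij.1 ij.2 := by
    intro ij
    have h := hT ij
    rw [Algebra.smul_def] at h
    exact h
  have hN0 : ((N : ℤ) : ℚ) ≠ 0 := by
    rw [Int.cast_ne_zero]
    exact nonZeroDivisors.ne_zero N.2
  obtain ⟨i₀, j₀, hij⟩ : ∃ i j, τ i j ≠ 0 := by
    by_contra hcon
    push Not at hcon
    exact hτ0 (funext fun i => funext fun j => hcon i j)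
  obtain ⟨U, hU, hU1⟩ := Finset.extract_gcd (s := Finset.univ) T ⟨(i₀, j₀), mem_univ _⟩
  have hG : (Finset.univ : Finset (ι × ι)).gcd T ≠ 0 := by
    intro h
    have h1 : T (i₀, j₀) = 0 := by rw [hU _ (mem_univ _), h, zero_mul]
    have h2 := hT' (i₀, j₀)
    rw [h1, Int.cast_zero] at h2
    exact (mul_ne_zero hN0 hij) h2.symm
  have hGQ : (((Finset.univ : Finset (ι × ι)).gcd T : ℤ) : ℚ) ≠ 0 := by
    rw [Int.cast_ne_zero]
    exact hG
  -- the rational matrix of U is a multiple of τ
  obtain ⟨r, hr⟩ : ∃ r : ℚ, ∀ i j, ((U (i, j) : ℤ) : ℚ) = r * τ i j := by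
    refine ⟨((N : ℤ) : ℚ) / (((Finset.univ : Finset (ι × ι)).gcd T : ℤ) : ℚ), fun i j => ?_⟩
    have h1 := hT' (i, j)
    rw [hU (i, j) (mem_univ _)] at h1
    push_cast at h1
    rw [div_mul_eq_mul_div, eq_div_iff hGQ, ← h1]
    ring
  have hUE : ∀ g i j, U (g • i, g • j) = C.sgn g i * C.sgn g j * U (i, j) := by
    intro g i j
    have h1 : ((U (g • i, g • j) : ℤ) : ℚ) = ((C.sgn g i * C.sgn g j * U (i, j) : ℤ) : ℚ) := by
      push_cast
      rw [hr, hr, hτ g i j]
      ring
    exact_mod_cast h1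
  refine ⟨fun i j => ((U (i, j) : ℤ) : ZMod p), ?_, ?_, ?_, ?_⟩
  · intro g i j
    show ((U (g • i, g • j) : ℤ) : ZMod p) = _
    rw [hUE]
    push_cast
    rfl
  · intro h
    apply red_dvd (Fact.out : p.Prime) hU1
    rintro ⟨i, j⟩
    exact congrFun (congrFun h i) j
  · intro j
    refine ⟨fun i => U (i, j), ?_, rfl⟩
    have e : (fun i => ((U (i, j) : ℤ) : ℚ)) = r • fun i => τ i j := by
      funext i
      rw [hr]
      rfl
    rw [e]
    exact Submodule.smul_mem _ _ (hτV j)
  · intro i
    have h1 : ∑ j, ((U (i, j) : ℤ) : ℚ) * svr ℚ v j = 0 := by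
      have h2 := hτv i
      have h3 : ∑ j, ((U (i, j) : ℤ) : ℚ) * svr ℚ v j = r * ∑ j, τ i j * svr ℚ v j := by
        rw [mul_sum]
        refine sum_congr rfl fun j _ => ?_
        rw [hr]
        ring
      rw [h3, h2, mul_zero]
    have h4 : ∑ j, U (i, j) * svr ℤ v j = 0 := by
      have h5 : ((∑ j, U (i, j) * svr ℤ v j : ℤ) : ℚ) = 0 := by
        rw [← h1]
        push_cast
        refine sum_congr rfl fun j _ => ?_
        unfold svr
        split_ifs <;> simp
      exact_mod_cast h5
    have h6 := congrArg (fun n : ℤ => (n : ZMod p)) h4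
    push_cast at h6
    rw [← h6]
    refine sum_congr rfl fun j _ => ?_
    unfold svr
    split_ifs <;> simp

end Pool.MP43e44c
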