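import Pool.Agent.H.MP_43e44c_ag.MQ.Comp2
import Pool.Agent.H.MP_43e44c_ag.MQ.NumP
import Pool.Agent.H.MP_43e44c_ag.MQ.Red

/-!
The number of sign vectors killed by a nonzero equivariant map to a small rational subspace.
-/

set_option autoImplicit false

open Finset Module

namespace Pool.MP43e44c

variable {Γ ι : Type*} [Group Γ] [Fintype Γ] [MulAction Γ ι] [Fintype ι] (C : Coc Γ ι)

/-- The constant. -/
noncomputable def C₃ : ℝ := modp_num.choose

theorem C₃_pos : 0 < C₃ := modp_num.choose_spec.1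

/-- If the first alternative of `modp_num` holds, the bound is trivial (there are `2 ^ n` sign
vectors); otherwise use `exists_red` and `kill_count` for the prime `p` given by `modp_num`. -/
theorem kill_count_rat [MulAction.IsPretransitive Γ ι] (hn : 2 ≤ Fintype.card ι)
    (V : Submodule ℚ (ι → ℚ)) (hV : C.PInv V) {m : ℕ} (hm0 : 0 < m) (hm : finrank ℚ V ≤ m) :
    ((C.KillSet V).ncard : ℝ) ≤ C₃ * ((m : ℝ) * Real.sqrt m *
      Real.sqrt (Real.log (Fintype.card ι) / Fintype.card ι)) * 2 ^ Fintype.card ι := by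
  classical
  rcases modp_num.choose_spec.2 (Fintype.card ι) m hm0 hn with h | ⟨p, hp, hp2, h⟩
  · have h1 : ((C.KillSet V).ncard : ℝ) ≤ 2 ^ Fintype.card ι := by
      have h2 := Set.ncard_le_ncard (Set.subset_univ (C.KillSet V)) (Set.toFinite _)
      rw [Set.ncard_univ, Nat.card_eq_fintype_card, Fintype.card_fun, Fintype.card_bool] at h2
      exact_mod_cast h2
    refine h1.trans ?_
    calc (2 : ℝ) ^ Fintype.card ι = 1 * 2 ^ Fintype.card ι := (one_mul _).symm
      _ ≤ _ := by gcongr; exact h
  · have : Fact p.Prime := ⟨hp⟩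
    obtain ⟨W, hW, hWV, hKW⟩ := exists_red C p V hV
    have h1 := kill_count C hp2 hm0 W hW (hWV.trans hm)
    have h2 : ((C.KillSet V).ncard : ℝ) ≤ (C.KillSet W).ncard := by
      exact_mod_cast Set.ncard_le_ncard hKW (Set.toFinite _)
    have hp1 : (0 : ℝ) < (p : ℝ) - 1 := by
      have : (2 : ℝ) ≤ p := by exact_mod_cast hp.two_le
      linarith
    refine h2.trans (le_of_mul_le_mul_right ?_ hp1)
    refine h1.trans ?_
    calc _ ≤ (C₃ * ((m : ℝ) * Real.sqrt m *
          Real.sqrt (Real.log (Fintype.card ι) / Fintype.card ι)) * ((p : ℝ) - 1))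
          * 2 ^ Fintype.card ι := mul_le_mul_of_nonneg_right h (by positivity)
      _ = _ := by ring

end Pool.MP43e44c
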